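import Pool.Agent.P8H50.SG.Zero

/-!
Systems over grids (helper50): the dimension of the zero locus; examples.
-/

set_option autoImplicit false

open FF Pool.Agent.W603.LV Pool.Agent.W602.GT MvPolynomial

namespace Pool.Agent.P8H50.SG

namespace Sys

variable {k : Type} [Field k] {n r : ℕ} (S : Sys k n r) {K : Type} [Field K] [Algebra k K]

/-- The zero locus has dimension at most `n - r`. -/
theorem dim_zero (hS : S.Good) {d : ℕ} {x y : Fin n → K} {w : Fin r → K}
    (V : S.Subvariety d x y w) (hw : ∀ i, w i = 0) : d + r ≤ n := by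
  classical
  have ht := S.nf_ne V.point
  have hN := S.nf_normal V.point
  have V' := Subvariety.scale S hS ht V
  have hw' : ∀ i, (∏ j, nf x y j ^ S.deg i j) * w i = 0 := fun i => by rw [hw i, mul_zero]
  obtain ⟨σ, hσ, hz⟩ := S.zero_sigma hS V'.point hw'
  set x' : Fin n → K := fun j => nf x y j * x j with hx'
  set y' : Fin n → K := fun j => nf x y j * y j with hy'
  have hc : ∀ i, ∃ c : k, x' (σ i) = algebraMap k K c := by
    intro i
    obtain ⟨l, hl⟩ := hz i
    obtain ⟨c, -, h, -⟩ := S.const_of_zero hS (hN (σ i)) hl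
    exact ⟨c, h⟩
  set T : Finset (Fin n) := (Finset.univ.image σ)ᶜ with hT
  have hcard : T.card + r = n := by
    have h1 : (Finset.univ.image σ).card = r := by
      rw [Finset.card_image_of_injective _ hσ]
      simp
    have h2 := Finset.card_add_card_compl (Finset.univ.image σ)
    rw [h1, Fintype.card_fin, ← hT] at h2
    omega
  set s : Set K := x' '' T with hs
  have htop : IntermediateField.adjoin k s = ⊤ := by
    refine S.top_le hN V' (fun j => ?_) fun i => by rw [hw' i]; exact zero_mem _
    by_cases hj : j ∈ T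
    · exact IntermediateField.subset_adjoin k _ ⟨j, hj, rfl⟩
    · rw [hT, Finset.mem_compl, not_not] at hj
      obtain ⟨i, -, rfl⟩ := Finset.mem_image.1 hj
      obtain ⟨c, hc⟩ := hc i
      change x' (σ i) ∈ _
      rw [hc]
      exact (IntermediateField.adjoin k s).algebraMap_mem c
  have halg : Algebra.IsAlgebraic (IntermediateField.adjoin k s) K := by
    refine ⟨fun u => ?_⟩
    have h1 : u ∈ IntermediateField.adjoin k s := by rw [htop]; trivial
    exact isAlgebraic_algebraMap (⟨u, h1⟩ : IntermediateField.adjoin k s)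
  have halg' : Algebra.IsAlgebraic (Algebra.adjoin k s) K := alg_adjoin halg
  obtain ⟨t, ht', hb⟩ := exists_isTranscendenceBasis_subset (R := k) (A := K) s
  have h3 : Cardinal.mk t = d := by
    have h := hb.cardinalMk_eq_trdeg
    rwa [V.dim] at h
  have h4 : Cardinal.mk t ≤ T.card := by
    refine (Cardinal.mk_le_mk_of_subset ht').trans ?_
    refine Cardinal.mk_image_le.trans ?_
    simp
  rw [h3] at h4
  have h5 : d ≤ T.card := by exact_mod_cast h4
  omega

end Sys

/-- Examples: the right hand sides are products of `m i ≥ n + 3` linear forms in `x j, y j`, for all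
`j`. -/
theorem good_of_reduced {k : Type} [Field k] {n r : ℕ} (m : Fin r → ℕ) (hm : ∀ i, n + 3 ≤ m i)
    (a b : ∀ i, Fin n → Fin (m i) → k)
    (hab : ∀ j, ∀ s t : (i : Fin r) × Fin (m i), s ≠ t →
      a s.1 j s.2 * b t.1 j t.2 ≠ a t.1 j t.2 * b s.1 j s.2) :
    (⟨m, fun i _ => m i, a, b, fun _ _ _ => 1⟩ : Sys k n r).Good where
  three i j := by have := hm i; simp only; omega
  pos i j l := le_rfl
  dvd i j := by simp
  small i := by
    have h1 : ((n : ℝ) + 3) ≤ m i := by exact_mod_cast hm i
    have h2 : (0 : ℝ) < (m i : ℝ) - 2 := by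
      have : (0 : ℝ) ≤ n := Nat.cast_nonneg n
      linarith
    simp only [Nat.cast_one, Finset.sum_const, Finset.card_univ, Fintype.card_fin, nsmul_eq_mul,
      mul_one]
    rw [← mul_div_assoc, div_lt_iff₀ h2]
    have : (0 : ℝ) ≤ n := Nat.cast_nonneg n
    nlinarith
  indep := hab

end Pool.Agent.P8H50.SG
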