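import Pool.Agent.P8H50.SG.Form
import Pool.Agent.W602.GT.Rat
import Pool.Agent.W603.LV.Hgt

/-!
Systems over grids (helper50): the degrees of curves.
-/

set_option autoImplicit false

open FF Pool.Agent.W603.LV Pool.Agent.W602.GT

namespace Pool.Agent.P8H50.SG

variable {k K : Type} [Field k] [Field K] [Algebra k K] {ι : Type} [Fintype ι]
  {q : ι → ℕ} {a b : ∀ j, Fin (q j) → k} {u : ι → K}

omit [Fintype ι] in
theorem jd_one (D : Fin 1 → Derivation k K K) (j : ι) :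
    jd q a b u (fun _ : Fin 1 => j) D = D 0 (u j) / RR q a b u j := by
  unfold jd
  rw [Matrix.det_fin_one, Matrix.of_apply]

/-- **The degrees of curves.** -/
theorem deg_bound [CharZero k] [IsAlgClosed k] [IsFF k K] (hq : ∀ j, 2 ≤ q j)
    (hab : ∀ j l l', l ≠ l' → a j l * b j l' ≠ a j l' * b j l) (hu : ∀ j, Transcendental k (u j))
    (hL : ∀ j l, lf (a j l) (b j l) (u j) ≠ 0) {f : ι → ℕ} {z : K}
    (hz0 : z ≠ 0) {c : ι → ℕ} {M : ℕ} {μ : ℤ}
    (hz1 : ∀ P : Place k K, 0 ≤ P.ord z + ∑ j, (f j : ℤ) * nu P (u j))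
    (hz2 : ∀ P : Place k K, (∃ j l, 0 < P.ord (lf (a j l) (b j l) (u j)) + nu P (u j)) →
      μ ≤ P.ord z + ∑ j, (f j : ℤ) * nu P (u j))
    (hM : ∑ j, (c j : ℤ) ≤ M * μ) (hc : ∀ j, (M : ℤ) * f j + 1 ≤ c j * ((q j : ℤ) - 2)) :
    ∑ j, hgt k (u j) ≤ (∑ j, (c j : ℤ)) * canDeg k K := by
  classical
  have hu0 : ∀ j, u j ≠ 0 := fun j h => hu j (by rw [h]; exact isAlgebraic_zero)
  set D0 := der k K with hD0
  have hD0ne : D0 ≠ 0 := der_ne
  have hR : ∀ j, RR q a b u j ≠ 0 := fun j => Finset.prod_ne_zero_iff.2 fun l _ => hL j l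
  have hDu : ∀ j, D0 (u j) ≠ 0 := fun j => der_ne_zero hD0ne (hu j)
  set G : ι → K := fun j => D0 (u j) / RR q a b u j with hG
  have hG0 : ∀ j, G j ≠ 0 := fun j => div_ne_zero (hDu j) (hR j)
  set ω : K := z ^ M * ∏ j, G j ^ c j with hω
  have hω0 : ω ≠ 0 := mul_ne_zero (pow_ne_zero _ hz0) (Finset.prod_ne_zero_iff.2 fun j _ =>
    pow_ne_zero _ (hG0 j))
  -- the local estimate
  have hloc : ∀ P : Place k K, (∑ j, (c j : ℤ)) * vo P D0 + ∑ j, nu P (u j) ≤ P.ord ω := by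
    intro P
    have hπ := ord_unif P
    have hπ0 : unif P ≠ 0 := by
      intro h
      rw [h, P.ord_zero] at hπ
      omega
    have hne := der_pi_ne_zero hD0ne P hπ
    have h1 : DerReg P ((D0 (unif P))⁻¹ • D0) := fun g hg =>
      der_reg P hπ _ (by simp [hne]) hg
    have hnn : 0 ≤ ∑ j, nu P (u j) := Finset.sum_nonneg fun j _ => nu_nonneg P (u j)
    obtain ⟨s, hs⟩ := Int.eq_ofNat_of_zero_le hnn
    have hg : Ge P (-(∑ j, nu P (u j))) ((unif P ^ s)⁻¹) := by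
      right
      rw [P.ord_inv, P.ord_pow, hπ, hs]
      omega
    have h2 := reg hq hab hu0 hL hM hc (fun j _ => j) (fun j => ⟨(0 : Fin 1), rfl⟩) P (hz1 P) (hz2 P)
      hg (fun _ : Fin 1 => (D0 (unif P))⁻¹ • D0) (fun _ => h1)
    have h3 : ∀ j, jd q a b u (fun _ : Fin 1 => j) (fun _ => (D0 (unif P))⁻¹ • D0) =
        (D0 (unif P))⁻¹ * G j := by
      intro j
      rw [jd_one, hG, Derivation.smul_apply, smul_eq_mul]
      ring
    simp only [h3, mul_pow, Finset.prod_mul_distrib, Finset.prod_pow_eq_pow_sum] at h2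
    have h4 : (unif P ^ s)⁻¹ * z ^ M * ((D0 (unif P))⁻¹ ^ (∑ j, c j) * ∏ j, G j ^ c j) =
        (unif P ^ s)⁻¹ * ((D0 (unif P))⁻¹ ^ (∑ j, c j) * ω) := by
      rw [hω]
      ring
    rw [h4] at h2
    have h5 := ord_of_ge (mul_ne_zero (inv_ne_zero (pow_ne_zero _ hπ0))
      (mul_ne_zero (pow_ne_zero _ (inv_ne_zero hne)) hω0)) h2
    rw [P.ord_mul (inv_ne_zero (pow_ne_zero _ hπ0))
      (mul_ne_zero (pow_ne_zero _ (inv_ne_zero hne)) hω0),
      P.ord_mul (pow_ne_zero _ (inv_ne_zero hne)) hω0, P.ord_inv, P.ord_pow, hπ, P.ord_pow,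
      P.ord_inv] at h5
    rw [hs]
    unfold vo
    push_cast at h5
    linarith
  -- the sum over all places
  obtain ⟨T1, hT1⟩ := exists_supp (k := k) (Finset.univ : Finset ι) u
  set T : Finset (Place k K) := (finite_support (k := k) ω).toFinset ∪
    (vo_finite hD0ne).toFinset ∪ T1 with hT
  have hs1 : ∑ P ∈ T, P.ord ω = 0 := sum_ord_finset ω T fun P hP =>
    Finset.mem_union_left _ (Finset.mem_union_left _
      ((finite_support (k := k) ω).mem_toFinset.2 hP))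
  have hs2 : ∑ P ∈ T, vo P D0 = - canDeg k K := canDeg_finset hD0ne T fun P hP =>
    Finset.mem_union_left _ (Finset.mem_union_right _ ((vo_finite hD0ne).mem_toFinset.2 hP))
  have hs3 : ∀ j, ∑ P ∈ T, nu P (u j) = hgt k (u j) := fun j =>
    (hgt_finset (u j) T fun P hP => Finset.mem_union_right _ (hT1 j (Finset.mem_univ _) P hP)).symm
  have h1 := Finset.sum_le_sum fun P (_ : P ∈ T) => hloc P
  rw [Finset.sum_add_distrib, ← Finset.mul_sum, hs1, hs2, Finset.sum_comm] at h1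
  simp only [hs3] at h1
  linarith

/-- The degrees of curves, for the covers. -/
theorem deg_cover [CharZero k] [IsAlgClosed k] [IsFF k K] (hq : ∀ j, 2 ≤ q j)
    (hab : ∀ j l l', l ≠ l' → a j l * b j l' ≠ a j l' * b j l) (hu : ∀ j, Transcendental k (u j))
    (hL : ∀ j l, lf (a j l) (b j l) (u j) ≠ 0) {e : ∀ j, Fin (q j) → ℕ} (he : ∀ j l, 1 ≤ e j l)
    {m : ℕ} (hm : 0 < m) {f : ι → ℕ} (hf : ∀ j, ∑ l, e j l = m * f j) {z κ : K} (hκ0 : κ ≠ 0)
    (hz0 : z ≠ 0) (hz : z ^ m = κ * ∏ j, ∏ l, lf (a j l) (b j l) (u j) ^ e j l) {c : ι → ℕ} {M : ℕ}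
    (hM : ∑ j, c j ≤ M) (hc : ∀ j, (M : ℤ) * f j + 1 ≤ c j * ((q j : ℤ) - 2))
    (hκ : ∀ P : Place k K, P.ord κ = 0) :
    ∑ j, hgt k (u j) ≤ (∑ j, (c j : ℤ)) * canDeg k K :=
  deg_bound (μ := 1) hq hab hu hL hz0 (fun P => (ord_z he hm hf hL hκ0 hz P (hκ P)).1)
    (fun P => (ord_z he hm hf hL hκ0 hz P (hκ P)).2) (by rw [mul_one]; exact_mod_cast hM) hc

end Pool.Agent.P8H50.SG
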