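import Pool.Agent.P8H50.SG.Norm
import Pool.Agent.W602.GT.Rat

/-!
Systems over grids (helper50): subvarieties of the zero locus.
-/

set_option autoImplicit false

open FF Pool.Agent.W603.LV Pool.Agent.W602.GT MvPolynomial

namespace Pool.Agent.P8H50.SG

namespace Sys

variable {k : Type} [Field k] {n r : ℕ} (S : Sys k n r) {K : Type} [Field K] [Algebra k K]

/-- two independent forms have no common zero -/
theorem no_common {a b a' b' : k} (h : a * b' ≠ a' * b) {x y : K} (h1 : hf a b x y = 0)
    (h2 : hf a' b' x y = 0) : x = 0 ∧ y = 0 := by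
  unfold hf at h1 h2
  have h3 : algebraMap k K (a * b' - a' * b) ≠ 0 := by
    rw [Ne, map_eq_zero, sub_eq_zero]
    exact h
  rw [map_sub, map_mul, map_mul] at h3
  constructor
  · refine (mul_eq_zero.1 ?_).resolve_left h3
    linear_combination algebraMap k K b' * h1 - algebraMap k K b * h2
  · refine (mul_eq_zero.1 ?_).resolve_left h3
    linear_combination algebraMap k K a * h2 - algebraMap k K a' * h1

/-- a point of the zero locus has `r` special coordinates -/
theorem zero_sigma (hS : S.Good) {x y : Fin n → K} {w : Fin r → K} (h : S.Point x y w)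
    (hw : ∀ i, w i = 0) : ∃ σ : Fin r → Fin n, Function.Injective σ ∧
      ∀ i, ∃ l, hf (S.a i (σ i) l) (S.b i (σ i) l) (x (σ i)) (y (σ i)) = 0 := by
  have h1 : ∀ i, ∃ j, ∃ l, hf (S.a i j l) (S.b i j l) (x j) (y j) = 0 := by
    intro i
    have h2 := h.eq i
    rw [hw i, zero_pow (S.m_pos hS i).ne', eq_comm, rhs, Finset.prod_eq_zero_iff] at h2
    obtain ⟨j, -, h2⟩ := h2
    rw [Finset.prod_eq_zero_iff] at h2
    obtain ⟨l, -, h2⟩ := h2
    exact ⟨j, l, (pow_eq_zero_iff (by have := hS.pos i j l; omega)).1 h2⟩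
  choose σ hσ using h1
  refine ⟨σ, fun i i' hi => ?_, hσ⟩
  by_contra hne
  obtain ⟨l, hl⟩ := hσ i
  obtain ⟨l', hl'⟩ := hσ i'
  have h2 : ∀ j (_ : σ i' = j), ∃ l', hf (S.a i' j l') (S.b i' j l') (x j) (y j) = 0 := by
    rintro j rfl
    exact ⟨l', hl'⟩
  obtain ⟨l'', hl''⟩ := h2 (σ i) hi.symm
  have h3 := hS.indep (σ i) ⟨i, l⟩ ⟨i', l''⟩ (fun h => hne (by
    have := congrArg Sigma.fst h
    exact this))
  have h4 := no_common h3 hl hl''
  rcases h.ne (σ i) with h5 | h5
  · exact h5 h4.1
  · exact h5 h4.2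

theorem le_of_zero (hS : S.Good) {x y : Fin n → K} {w : Fin r → K} (h : S.Point x y w)
    (hw : ∀ i, w i = 0) : r ≤ n := by
  obtain ⟨σ, hσ, -⟩ := S.zero_sigma hS h hw
  simpa using Fintype.card_le_of_injective σ hσ

/-- a zero of a form which is part of an independent pair -/
theorem const_of_zero (hS : S.Good) {i : Fin r} {j : Fin n} {l : Fin (S.q i j)} {x y : K}
    (hxy : y = 1 ∨ (x = 1 ∧ y = 0)) (h : hf (S.a i j l) (S.b i j l) x y = 0) :
    ∃ c c' : k, x = algebraMap k K c ∧ y = algebraMap k K c' := by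
  rcases hxy with h1 | ⟨h1, h2⟩
  · have h3 : S.a i j l ≠ 0 := by
      intro h0
      rw [hf, h0, map_zero, zero_mul, zero_add, h1, mul_one, map_eq_zero] at h
      have h4 : 3 ≤ S.q i j := hS.three i j
      obtain ⟨l', hl'⟩ : ∃ l' : Fin (S.q i j), l ≠ l' := by
        by_cases h5 : l = ⟨0, by omega⟩
        · refine ⟨⟨1, by omega⟩, ?_⟩
          rw [h5]
          intro h6
          have := congrArg Fin.val h6
          simp at this
        · exact ⟨_, h5⟩
      have h5 := hS.indep j ⟨i, l⟩ ⟨i, l'⟩ (by simpa using hl')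
      apply h5
      simp [h0, h]
    refine ⟨- S.b i j l / S.a i j l, 1, ?_, by rw [h1, map_one]⟩
    rw [map_div₀, map_neg, eq_div_iff (by rwa [Ne, map_eq_zero])]
    rw [hf, h1, mul_one] at h
    linear_combination h
  · exact ⟨1, 0, by rw [h1, map_one], by rw [h2, map_zero]⟩

/-- Points of the zero locus, when it has dimension at most one. -/
theorem line_pt (hS : S.Good) (hn : n ≤ r + 1) {x y : Fin n → K} {w : Fin r → K}
    (hN : Normal x y) (h : S.Point x y w) (hw : ∀ i, w i = 0) {j0 : Fin n}
    (hj0 : Transcendental k (x j0)) :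
    y j0 = 1 ∧ r + 1 = n ∧ ∀ j, j ≠ j0 → ∃ c c' : k, x j = algebraMap k K c ∧
      y j = algebraMap k K c' := by
  classical
  obtain ⟨σ, hσ, hz⟩ := S.zero_sigma hS h hw
  have hc : ∀ i, ∃ c c' : k, x (σ i) = algebraMap k K c ∧ y (σ i) = algebraMap k K c' := by
    intro i
    obtain ⟨l, hl⟩ := hz i
    exact S.const_of_zero hS (hN (σ i)) hl
  have hy0 : y j0 = 1 := by
    rcases hN j0 with h | ⟨h, -⟩
    · exact h
    · exfalso
      apply hj0
      rw [h]
      exact isAlgebraic_one
  have h2 : ∀ i, σ i ≠ j0 := by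
    intro i hi
    obtain ⟨c, -, hc, -⟩ := hc i
    rw [hi] at hc
    apply hj0
    rw [hc]
    exact isAlgebraic_algebraMap c
  have h3 : (Finset.univ.image σ).card = r := by
    rw [Finset.card_image_of_injective _ hσ]
    simp
  have h4 : insert j0 (Finset.univ.image σ) = Finset.univ := by
    apply Finset.eq_univ_of_card
    rw [Finset.card_insert_of_notMem (by simpa using h2), h3, Fintype.card_fin]
    have h5 : r < n := by
      have h6 : (Finset.univ.image σ) ⊆ Finset.univ.erase j0 := by
        intro j hj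
        obtain ⟨i, -, rfl⟩ := Finset.mem_image.1 hj
        exact Finset.mem_erase.2 ⟨h2 i, Finset.mem_univ _⟩
      have h7 := Finset.card_le_card h6
      rw [h3, Finset.card_erase_of_mem (Finset.mem_univ _), Finset.card_univ, Fintype.card_fin] at h7
      have := j0.2
      omega
    omega
  refine ⟨hy0, ?_, ?_⟩
  · have h6 := congrArg Finset.card h4
    rw [Finset.card_insert_of_notMem (by simpa using h2), h3, Finset.card_univ,
      Fintype.card_fin] at h6
    exact h6
  · intro j hj
    have h6 : j ∈ insert j0 (Finset.univ.image σ) := by rw [h4]; exact Finset.mem_univ _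
    rcases Finset.mem_insert.1 h6 with h7 | h7
    · exact absurd h7 hj
    · obtain ⟨i, -, rfl⟩ := Finset.mem_image.1 h7
      exact hc i

/-- **Subvarieties of the zero locus**, when it has dimension at most one. -/
theorem line [IsAlgClosed k] (hS : S.Good) (hn : n ≤ r + 1) {d : ℕ} (hd : 1 ≤ d)
    {x y : Fin n → K} {w : Fin r → K} (hN : Normal x y) (V : S.Subvariety d x y w)
    (hw : ∀ i, w i = 0) :
    ∃ j0, Transcendental k (x j0) ∧ y j0 = 1 ∧ IntermediateField.adjoin k {x j0} = ⊤ ∧
      r + 1 = n ∧ ∀ j, j ≠ j0 → ∃ c c' : k, x j = algebraMap k K c ∧ y j = algebraMap k K c' := by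
  classical
  have h1 : ∃ j0, Transcendental k (x j0) := by
    by_contra hcon
    push Not at hcon
    have h2 : (⊥ : IntermediateField k K) = ⊤ := by
      refine S.top_le hN V (fun j => ?_) fun i => by rw [hw i]; exact zero_mem _
      have h3 : IsAlgebraic k (x j) := by
        by_contra h4
        exact hcon j h4
      obtain ⟨c, hc⟩ := const_of_algebraic h3
      rw [hc]
      exact (⊥ : IntermediateField k K).algebraMap_mem c
    have h3 : Algebra.IsAlgebraic k K := by
      refine ⟨fun u => ?_⟩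
      have h4 : u ∈ (⊥ : IntermediateField k K) := by rw [h2]; trivial
      obtain ⟨c, rfl⟩ := IntermediateField.mem_bot.1 h4
      exact isAlgebraic_algebraMap c
    have h4 := V.dim
    rw [_root_.trdeg_eq_zero] at h4
    have h5 : (0 : ℕ) = d := by exact_mod_cast h4
    omega
  obtain ⟨j0, hj0⟩ := h1
  obtain ⟨hy0, hrn, h5⟩ := S.line_pt hS hn hN V.point hw hj0
  refine ⟨j0, hj0, hy0, ?_, hrn, h5⟩
  refine S.top_le hN V (fun j => ?_) fun i => by rw [hw i]; exact zero_mem _
  by_cases hj : j = j0
  · rw [hj]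
    exact IntermediateField.mem_adjoin_simple_self k _
  · obtain ⟨c, -, h6, -⟩ := h5 j hj
    rw [h6]
    exact (IntermediateField.adjoin k {x j0}).algebraMap_mem c

theorem isFF_of_top {u : K} (hu : Transcendental k u) (h : IntermediateField.adjoin k {u} = ⊤) :
    IsFF k K := by
  have : FiniteDimensional (IntermediateField.adjoin k {u}) K :=
    Module.Finite.of_surjective (Algebra.linearMap (IntermediateField.adjoin k {u}) K)
      fun v => ⟨⟨v, by rw [h]; trivial⟩, rfl⟩
  exact IsFF.of_finite hu this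

/-- subvarieties of the zero locus are not of general type when `n ≤ r + 1` -/
theorem not_general_type [CharZero k] [IsAlgClosed k] (hS : S.Good) (hn : n ≤ r + 1) {d : ℕ}
    (hd : 1 ≤ d) {x y : Fin n → K} {w : Fin r → K} (V : S.Subvariety d x y w)
    (hw : ∀ i, w i = 0) : ¬ GeneralType k K d := by
  have ht := S.nf_ne V.point
  have hN := S.nf_normal V.point
  have V' := Subvariety.scale S hS ht V
  obtain ⟨j0, hj0, -, htop, -⟩ := S.line hS hn hd hN V' (fun i => by rw [hw i, mul_zero])
  have := isFF_of_top hj0 htop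
  exact not_gt htop d

end Sys

end Pool.Agent.P8H50.SG
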