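import Pool.Agent.P8H50.SG.ADefs
import Pool.Agent.P8H50.SG.Deg
import Pool.Agent.P8H50.SG.Zero
import Mathlib.FieldTheory.RatFunc.IntermediateField

/-!
Systems over grids (helper50): algebraic notions of hyperbolicity.
-/

set_option autoImplicit false

open FF Pool.Agent.W603.LV Pool.Agent.W602.GT MvPolynomial

namespace Pool.Agent.P8H50.SG

section
variable {k K : Type} [Field k] [Field K] [Algebra k K]

theorem hgt_const (c : k) : hgt k (algebraMap k K c) = 0 := by
  rw [hgt_finset (k := k) (algebraMap k K c) ∅ fun P h => ?_]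
  · rfl
  · exfalso
    apply h
    by_cases hc : c = 0
    · rw [hc, map_zero, P.ord_zero]
    · exact P.ord_const hc

theorem degree_nonneg {n : ℕ} (x y : Fin n → K) : 0 ≤ degree k x y :=
  Finset.sum_nonneg fun _ _ => hgt_nonneg _

theorem degree_scale {n : ℕ} {t : Fin n → K} (ht : ∀ j, t j ≠ 0) (x y : Fin n → K) :
    degree k (fun j => t j * x j) (fun j => t j * y j) = degree k x y := by
  unfold degree
  refine Finset.sum_congr rfl fun j _ => ?_
  rw [mul_div_mul_left _ _ (ht j)]

theorem hgt_alg [IsAlgClosed k] {n : ℕ} {x y : Fin n → K} (hxy : Normal x y) {j : Fin n}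
    (hj : ¬ Transcendental k (x j)) : hgt k (x j / y j) = 0 := by
  have h1 : IsAlgebraic k (x j) := by
    by_contra h
    exact hj h
  obtain ⟨c, hc⟩ := const_of_algebraic h1
  rcases hxy j with h | ⟨-, h⟩
  · rw [h, div_one, hc]
    exact hgt_const c
  · rw [h, div_zero, ← map_zero (algebraMap k K)]
    exact hgt_const 0

open scoped Classical in
theorem degree_normal [IsAlgClosed k] {n : ℕ} {x y : Fin n → K} (hxy : Normal x y)
    (hy : ∀ j : {j // Transcendental k (x j)}, y j.1 = 1) :
    degree k x y = ∑ j : {j // Transcendental k (x j)}, hgt k (x j.1) := by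
  unfold degree
  rw [← Fintype.sum_subtype_add_sum_subtype (fun j => Transcendental k (x j))]
  have h1 : ∑ j : {j // ¬ Transcendental k (x j)}, hgt k (x j.1 / y j.1) = 0 :=
    Finset.sum_eq_zero fun j _ => hgt_alg hxy j.2
  rw [h1, add_zero]
  exact Finset.sum_congr rfl fun j _ => by rw [hy j, div_one]

/-- the degree bound for one equation -/
theorem deg_general [IsAlgClosed k] [CharZero k] [IsFF k K] {n : ℕ} {q : Fin n → ℕ}
    (hq : ∀ j, 3 ≤ q j)
    {a b : ∀ j, Fin (q j) → k} (hab : ∀ j l l', l ≠ l' → a j l * b j l' ≠ a j l' * b j l)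
    {e : ∀ j, Fin (q j) → ℕ} (he : ∀ j l, 1 ≤ e j l) {m : ℕ} {f : Fin n → ℕ}
    (hf' : ∀ j, ∑ l, e j l = m * f j) (hm : 0 < m) {A M : ℕ} {c : Fin n → ℕ}
    (hM : ∑ j, c j ≤ M) (hA : ∑ j, c j ≤ A) (hc : ∀ j, M * f j < c j * (q j - 2))
    {x y : Fin n → K} (hxy : Normal x y) {z : K}
    (hz0 : z ≠ 0) (hz : z ^ m = ∏ j, ∏ l, hf (a j l) (b j l) (x j) (y j) ^ e j l) :
    degree k x y ≤ A * max (canDeg k K) 0 := by
  classical
  obtain ⟨hy, hL, κ, hκ, hz'⟩ := split hm hxy hz0 he hz
  rw [degree_normal hxy hy]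
  set J := {j // Transcendental k (x j)} with hJ
  have hcJ : ∑ j : J, c j.1 ≤ ∑ j, c j := by
    rw [← Fintype.sum_subtype_add_sum_subtype (fun j => Transcendental k (x j)) c]
    exact Nat.le_add_right _ _
  have h1 := deg_cover (q := fun j : J => q j.1) (a := fun j => a j.1) (b := fun j => b j.1)
    (u := fun j => x j.1) (e := fun j => e j.1) (f := fun j => f j.1) (c := fun j => c j.1)
    (M := M) (κ := algebraMap k K κ) (z := z)
    (fun j => by have := hq j.1; omega) (fun j => hab j.1) (fun j => j.2) hL (fun j => he j.1) hm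
    (fun j => hf' j.1) ((_root_.map_ne_zero _).2 hκ) hz0 hz' (hcJ.trans hM) (fun j => by
      have h2 := hc j.1
      have h3 : ((q j.1 - 2 : ℕ) : ℤ) = (q j.1 : ℤ) - 2 := by
        have := hq j.1
        omega
      rw [← h3]
      exact_mod_cast h2) (fun P => P.ord_const hκ)
  refine h1.trans ?_
  have h4 : (∑ j : J, (c j.1 : ℤ)) ≤ A := by exact_mod_cast hcJ.trans hA
  have h5 : (0 : ℤ) ≤ ∑ j : J, (c j.1 : ℤ) := Finset.sum_nonneg fun j _ => Int.natCast_nonneg _
  calc (∑ j : J, (c j.1 : ℤ)) * canDeg k K ≤ (∑ j : J, (c j.1 : ℤ)) * max (canDeg k K) 0 :=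
        mul_le_mul_of_nonneg_left (le_max_left _ _) h5
    _ ≤ A * max (canDeg k K) 0 := mul_le_mul_of_nonneg_right h4 (le_max_right _ _)

end

namespace Sys

variable {k : Type} [Field k] {n r : ℕ} (S : Sys k n r) {K : Type} [Field K] [Algebra k K]

theorem exists_bound (hS : S.Good) : ∃ A, S.Bound A := by
  classical
  have h1 : ∀ i, ∃ (M : ℕ) (c : Fin n → ℕ), ∑ j, c j ≤ M ∧
      ∀ j, M * S.deg i j < c j * (S.q i j - 2) := by
    intro i
    obtain ⟨M, c, hM, hc⟩ := weights (S.q i) (S.deg i) (hS.three i) (by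
      have h1 := hS.small i
      have hm : (0 : ℝ) < S.m i := by exact_mod_cast S.m_pos hS i
      have h2 : ∑ j, (∑ l, (S.e i j l : ℝ)) / ((S.q i j : ℝ) - 2) =
          S.m i * ∑ j, (S.deg i j : ℝ) / ((S.q i j : ℝ) - 2) := by
        rw [Finset.mul_sum]
        refine Finset.sum_congr rfl fun j _ => ?_
        have h3 : (∑ l, (S.e i j l : ℝ)) = S.m i * S.deg i j := by exact_mod_cast S.sum_e hS i j
        rw [h3, mul_div_assoc]
      rw [h2] at h1
      nlinarith)
    refine ⟨M, c, hM, fun j => ?_⟩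
    have h2 := hc j
    have h3 : ((S.q i j - 2 : ℕ) : ℤ) = (S.q i j : ℤ) - 2 := by
      have := hS.three i j
      omega
    rw [← h3] at h2
    exact_mod_cast h2
  choose M c hM hc using h1
  refine ⟨∑ i, M i, fun i => ⟨M i, c i, hM i, (hM i).trans ?_, hc i⟩⟩
  exact Finset.single_le_sum (fun _ _ => Nat.zero_le _) (Finset.mem_univ i)

/-- **The degrees of curves outside of the zero locus.** -/
theorem degree_le [IsAlgClosed k] [CharZero k] [IsFF k K] (hS : S.Good) {A : ℕ}
    (hA : S.Bound A) {x y : Fin n → K} {w : Fin r → K} (h : S.Point x y w) {i : Fin r}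
    (hi : w i ≠ 0) : degree k x y ≤ A * max (canDeg k K) 0 := by
  have ht := S.nf_ne h
  have hN := S.nf_normal h
  have h' := Point.scale S hS ht h
  rw [← degree_scale (k := k) ht x y]
  obtain ⟨M, c, hM, hcA, hc⟩ := hA i
  exact deg_general (q := S.q i) (a := S.a i) (b := S.b i) (e := S.e i) (m := S.m i) (f := S.deg i)
    (hS.three i) (fun j l l' hl => hS.indep j ⟨i, l⟩ ⟨i, l'⟩ (by simpa using hl)) (hS.pos i)
    (S.sum_e hS i) (S.m_pos hS i) hM hcA hc hN (mul_ne_zero (prod_ne ht (S.deg i)) hi) (h'.eq i)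

/-- the restriction of a form to a line -/
noncomputable def lp {k : Type} [Field k] {n r : ℕ} (j0 : Fin n) (c c' : Fin n → k)
    (F : MvPolynomial ((Fin n ⊕ Fin n) ⊕ Fin r) k) : Polynomial k :=
  aeval (pt (Function.update (fun j => Polynomial.C (c j)) j0 Polynomial.X)
    (Function.update (fun j => Polynomial.C (c' j)) j0 1) fun _ => 0) F

theorem lp_aeval (j0 : Fin n) (c c' : Fin n → k) (u : K)
    (F : MvPolynomial ((Fin n ⊕ Fin n) ⊕ Fin r) k) : Polynomial.aeval u (lp j0 c c' F) =
      val k (Function.update (fun j => algebraMap k K (c j)) j0 u)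
        (Function.update (fun j => algebraMap k K (c' j)) j0 1) (fun _ => 0) F := by
  have h1 : (Polynomial.aeval u).comp
      (aeval (pt (Function.update (fun j => Polynomial.C (c j)) j0 Polynomial.X)
        (Function.update (fun j => Polynomial.C (c' j)) j0 1) fun _ => 0)) =
      (aeval (pt (Function.update (fun j => algebraMap k K (c j)) j0 u)
        (Function.update (fun j => algebraMap k K (c' j)) j0 1) fun _ => (0 : K)) :
        MvPolynomial ((Fin n ⊕ Fin n) ⊕ Fin r) k →ₐ[k] K) := by
    apply MvPolynomial.algHom_ext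
    intro v
    simp only [AlgHom.comp_apply, aeval_X]
    rcases v with (j | j) | i
    · simp only [pt, Sum.elim_inl]
      by_cases hj : j = j0
      · subst hj
        rw [Function.update_self, Function.update_self, Polynomial.aeval_X]
      · rw [Function.update_of_ne hj, Function.update_of_ne hj, Polynomial.aeval_C]
    · simp only [pt, Sum.elim_inl, Sum.elim_inr]
      by_cases hj : j = j0
      · subst hj
        rw [Function.update_self, Function.update_self, map_one]
      · rw [Function.update_of_ne hj, Function.update_of_ne hj, Polynomial.aeval_C]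
    · simp only [pt, Sum.elim_inr, map_zero]
  exact congrArg (fun φ => φ F) h1

/-- the right hand sides as polynomials -/
noncomputable def rp (i : Fin r) : MvPolynomial ((Fin n ⊕ Fin n) ⊕ Fin r) k :=
  ∏ j, ∏ l, (C (S.a i j l) * X (Sum.inl (Sum.inl j)) + C (S.b i j l) * X (Sum.inl (Sum.inr j))) ^
    S.e i j l

theorem val_rp (i : Fin r) (x y : Fin n → K) (w : Fin r → K) :
    val k x y w (S.rp i) = S.rhs i x y := by
  unfold val rp rhs
  simp [pt]

variable (Φ : Set (MvPolynomial ((Fin n ⊕ Fin n) ⊕ Fin r) k))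

/-- the line is contained in the closed subset -/
structure Lin (j0 : Fin n) (c c' : Fin n → k) : Prop where
  ne : ∀ j, j ≠ j0 → c j ≠ 0 ∨ c' j ≠ 0
  eq : ∀ i, lp j0 c c' (S.rp i) = 0
  zero : ∀ F ∈ Φ, lp j0 c c' F = 0

variable {Φ}

theorem Lin.pointIn (hS : S.Good) {j0 : Fin n} {c c' : Fin n → k} (h : S.Lin Φ j0 c c') (u : K) :
    S.PointIn Φ (Function.update (fun j => algebraMap k K (c j)) j0 u)
        (Function.update (fun j => algebraMap k K (c' j)) j0 1) fun _ => 0 := by
  refine ⟨⟨fun j => ?_, fun i => ?_⟩, fun F hF => ?_⟩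
  · by_cases hj : j = j0
    · right
      subst hj
      simp
    · rw [Function.update_of_ne hj, Function.update_of_ne hj]
      exact (h.ne j hj).imp (fun h => (_root_.map_ne_zero _).2 h)
        fun h => (_root_.map_ne_zero _).2 h
  · rw [zero_pow (S.m_pos hS i).ne', ← S.val_rp i _ _ (fun _ => 0), ← lp_aeval, h.eq i, map_zero]
  · rw [← lp_aeval, h.zero F hF, map_zero]

theorem lin_of_pointIn (hS : S.Good) {j0 : Fin n} {c c' : Fin n → k} {u : K}
    (hu : Transcendental k u)
    (h : S.PointIn Φ (Function.update (fun j => algebraMap k K (c j)) j0 u)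
        (Function.update (fun j => algebraMap k K (c' j)) j0 1) fun _ => 0) :
    S.Lin Φ j0 c c' := by
  have h0 : ∀ p : Polynomial k, Polynomial.aeval u p = 0 → p = 0 := by
    intro p hp
    by_contra hne
    exact hu ⟨p, hne, hp⟩
  refine ⟨fun j hj => ?_, fun i => h0 _ ?_, fun F hF => h0 _ ?_⟩
  · have h1 := h.point.ne j
    rw [Function.update_of_ne hj, Function.update_of_ne hj] at h1
    exact h1.imp (fun h => (_root_.map_ne_zero _).1 h) fun h => (_root_.map_ne_zero _).1 h
  · rw [lp_aeval, S.val_rp i, ← h.point.eq i, zero_pow (S.m_pos hS i).ne']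
  · rw [lp_aeval]
    exact h.zero F hF

theorem lin_of_line [Infinite k] (hS : S.Good) {j0 : Fin n} {c c' : Fin n → k}
    (h : ∀ s : k, S.PointIn (K := k) Φ (Function.update c j0 s) (Function.update c' j0 1)
      fun _ => 0) : S.Lin Φ j0 c c' := by
  have h0 : ∀ p : Polynomial k, (∀ s : k, Polynomial.aeval s p = 0) → p = 0 := by
    intro p hp
    apply Polynomial.funext
    intro s
    rw [Polynomial.eval_zero]
    exact hp s
  refine ⟨fun j hj => ?_, fun i => h0 _ fun s => ?_, fun F hF => h0 _ fun s => ?_⟩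
  · have h1 := (h 0).point.ne j
    rwa [Function.update_of_ne hj, Function.update_of_ne hj] at h1
  · rw [lp_aeval, S.val_rp i]
    have h1 := (h s).point.eq i
    rw [zero_pow (S.m_pos hS i).ne'] at h1
    exact h1.symm
  · rw [lp_aeval]
    exact (h s).zero F hF

theorem containsLine_iff [Infinite k] (hS : S.Good) : S.ContainsLine Φ ↔ ∃ j0 c c', S.Lin Φ j0 c c' :=
  ⟨fun ⟨j0, c, c', h⟩ => ⟨j0, c, c', S.lin_of_line hS h⟩,
    fun ⟨j0, c, c', h⟩ => ⟨j0, c, c', fun s => h.pointIn S hS s⟩⟩

/-- points of the closed subset which are not constant and in the zero locus give lines -/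
theorem line_of_point [IsAlgClosed k] (hS : S.Good) (hn : n ≤ r + 1)
    (hΦ : ∀ F ∈ Φ, ∃ d, S.IsForm F d) {x y : Fin n → K} {w : Fin r → K} (h : S.PointIn Φ x y w)
    (hw : ∀ i, w i = 0) (hdeg : degree k x y ≠ 0) : ∃ j0 c c', S.Lin Φ j0 c c' := by
  classical
  have ht := S.nf_ne h.point
  have hN := S.nf_normal h.point
  have h' := Point.scale S hS ht h.point
  rw [← degree_scale (k := k) ht x y] at hdeg
  have hv : ∀ F ∈ Φ, val k (fun j => nf x y j * x j) (fun j => nf x y j * y j)
      (fun i => (∏ j, nf x y j ^ S.deg i j) * w i) F = 0 := by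
    intro F hF
    obtain ⟨d, hd⟩ := hΦ F hF
    rw [S.val_scale (nf x y) x y w hd, h.zero F hF, mul_zero]
  have hw' : (fun i => (∏ j, nf x y j ^ S.deg i j) * w i) = fun _ => (0 : K) := by
    funext i
    rw [hw i, mul_zero]
  rw [hw'] at h' hv
  set x' : Fin n → K := fun j => nf x y j * x j with hx'
  set y' : Fin n → K := fun j => nf x y j * y j with hy'
  have h1 : ∃ j0, Transcendental k (x' j0) := by
    by_contra hcon
    push Not at hcon
    apply hdeg
    unfold degree
    exact Finset.sum_eq_zero fun j _ => hgt_alg hN (hcon j)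
  obtain ⟨j0, hj0⟩ := h1
  obtain ⟨hy0, -, hc⟩ := S.line_pt hS hn hN h' (fun _ => rfl) hj0
  choose c c' hcx hcy using hc
  let C1 : Fin n → k := fun j => if h : j = j0 then 0 else c j h
  let C2 : Fin n → k := fun j => if h : j = j0 then 0 else c' j h
  have e1 : x' = Function.update (fun j => algebraMap k K (C1 j)) j0 (x' j0) := by
    funext j
    by_cases hj : j = j0
    · subst hj
      simp
    · rw [Function.update_of_ne hj, hcx j hj]
      simp [C1, hj]
  have e2 : y' = Function.update (fun j => algebraMap k K (C2 j)) j0 1 := by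
    funext j
    by_cases hj : j = j0
    · subst hj
      simp [hy0]
    · rw [Function.update_of_ne hj, hcy j hj]
      simp [C2, hj]
  refine ⟨j0, C1, C2, S.lin_of_pointIn hS hj0 ?_⟩
  rw [← e1, ← e2]
  exact ⟨h', hv⟩

/-- there is no line for `n ≤ r` -/
theorem no_line [IsAlgClosed k] (hS : S.Good) (hn : n ≤ r) {j0 : Fin n} {c c' : Fin n → k}
    (h : S.Lin Φ j0 c c') : False := by
  have h1 := (h.pointIn S hS (RatFunc.X : RatFunc k)).point
  have ht := S.nf_ne h1
  have h2 := S.le_of_zero hS h1 (fun _ => rfl)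
  obtain ⟨σ, hσ, hz⟩ := S.zero_sigma hS h1 (fun _ => rfl)
  have h3 : Function.Surjective σ :=
    ((Fintype.bijective_iff_injective_and_card σ).2 ⟨hσ, by
      rw [Fintype.card_fin, Fintype.card_fin]
      omega⟩).2
  obtain ⟨i, hi⟩ := h3 j0
  obtain ⟨l, hl⟩ := hz i
  have h4 : ∃ c c' : k, (RatFunc.X : RatFunc k) = algebraMap k (RatFunc k) c ∧
      (1 : RatFunc k) = algebraMap k (RatFunc k) c' := by
    subst hi
    refine S.const_of_zero hS (i := i) (j := σ i) (l := l) (Or.inl rfl) ?_
    rwa [Function.update_self, Function.update_self] at hl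
  obtain ⟨c0, -, hc0, -⟩ := h4
  apply RatFunc.transcendental_X (K := k)
  rw [hc0]
  exact isAlgebraic_algebraMap c0

end Sys

end Pool.Agent.P8H50.SG
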