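import Pool.Agent.P8H50.SG.OVer

/-!
Systems over grids (helper50): varieties over the systems are of general type and pseudo-Brody
hyperbolic.
-/

set_option autoImplicit false

open FF Pool.Agent.W603.LV Pool.Agent.W602.GT MvPolynomial

namespace Pool.Agent.P8H50.SG

namespace Sys

section
variable {k : Type} [Field k] {n r : ℕ} (S : Sys k n r) {K : Type} [Field K] [Algebra k K]

theorem GenFinite.norm {x y : Fin n → K} {w : Fin r → K} (_h : S.Point x y w)
    (halg : GenFinite k x y) :
    Algebra.IsAlgebraic (IntermediateField.adjoin k (Set.range fun j => nf x y j * x j)) K := by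
  refine alg_le (L := IntermediateField.adjoin k (Set.range fun j => x j / y j)) ?_ halg
  rw [IntermediateField.adjoin_le_iff]
  rintro _ ⟨j, rfl⟩
  by_cases h0 : y j = 0
  · simp only [h0, div_zero]
    exact (IntermediateField.adjoin k _).zero_mem
  · have h1 : x j / y j = nf x y j * x j := by
      unfold nf
      rw [if_neg h0, div_eq_mul_inv, mul_comm]
    change x j / y j ∈ _
    rw [h1]
    exact IntermediateField.subset_adjoin k _ ⟨j, rfl⟩

/-- **Varieties over the system are of general type.** -/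
theorem general_over [IsAlgClosed k] [CharZero k] (hS : S.Good) {d : ℕ} (hd : 1 ≤ d)
    {x y : Fin n → K} {w : Fin r → K} (h : S.Point x y w) (halg : GenFinite k x y)
    (htr : Algebra.trdeg k K = d) {i : Fin r} (hi : w i ≠ 0) : GeneralType k K d := by
  have ht := S.nf_ne h
  have hN := S.nf_normal h
  have h' := Point.scale S hS ht h
  refine general (q := S.q i) (a := S.a i) (b := S.b i) (e := S.e i) (m := S.m i) (f := S.deg i)
    (hS.three i) (fun j l l' hl => ?_) (hS.pos i) (S.sum_e hS i) (S.m_pos hS i) ?_ hN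
    (mul_ne_zero (prod_ne ht (S.deg i)) hi) (h'.eq i) (GenFinite.norm S h halg) hd htr
  · have := hS.indep j ⟨i, l⟩ ⟨i, l'⟩ (by simpa using hl)
    exact this
  · have h1 := hS.small i
    have hm : (0 : ℝ) < S.m i := by exact_mod_cast S.m_pos hS i
    have h2 : ∑ j, (∑ l, (S.e i j l : ℝ)) / ((S.q i j : ℝ) - 2) =
        S.m i * ∑ j, (S.deg i j : ℝ) / ((S.q i j : ℝ) - 2) := by
      rw [Finset.mul_sum]
      refine Finset.sum_congr rfl fun j _ => ?_
      have h3 : (∑ l, (S.e i j l : ℝ)) = S.m i * S.deg i j := by exact_mod_cast S.sum_e hS i j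
      rw [h3, mul_div_assoc]
    rw [h2] at h1
    nlinarith

end

end Sys

/-- a product of entire functions which vanishes has a factor which vanishes -/
theorem prod_zero {ι : Type} (s : Finset ι) (f : ι → ℂ → ℂ) (hf : ∀ i ∈ s, Differentiable ℂ (f i))
    (h : ∀ z, ∏ i ∈ s, f i z = 0) : ∃ i ∈ s, ∀ z, f i z = 0 := by
  classical
  by_contra hcon
  push Not at hcon
  have h3 : ∀ i ∈ s, ∀ᶠ z in nhdsWithin 0 {0}ᶜ, f i z ≠ 0 := by
    intro i hi
    rcases ((hf i hi).analyticAt 0).eventually_eq_zero_or_eventually_ne_zero with h4 | h4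
    · exfalso
      obtain ⟨z, hz⟩ := hcon i hi
      apply hz
      have h5 : AnalyticOnNhd ℂ (f i) Set.univ := fun z _ => (hf i hi).analyticAt z
      exact h5.eqOn_zero_of_preconnected_of_eventuallyEq_zero isPreconnected_univ
        (Set.mem_univ 0) h4 (Set.mem_univ z)
    · exact h4
  have h4 : ∀ᶠ z in nhdsWithin (0 : ℂ) {0}ᶜ, ∀ i ∈ s, f i z ≠ 0 :=
    (Filter.eventually_all_finset s).2 h3
  obtain ⟨z, hz⟩ := h4.exists
  exact Finset.prod_ne_zero_iff.2 hz (h z)

/-- functions whose ratio is a root of a polynomial with constant coefficients are proportional -/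
theorem proportional {f g : ℂ → ℂ} (hf : Differentiable ℂ f) (hg : Differentiable ℂ g) {z1 : ℂ}
    (hz1 : g z1 ≠ 0) (D : ℕ) (c : ℕ → ℂ) (hc : c D ≠ 0)
    (h : ∀ z, ∑ s ∈ Finset.range (D + 1), c s * f z ^ s * g z ^ (D - s) = 0) :
    ∃ ρ : ℂ, ∀ z, f z = ρ * g z := by
  classical
  set p : Polynomial ℂ := ∑ s ∈ Finset.range (D + 1), Polynomial.C (c s) * Polynomial.X ^ s with hp
  have hp0 : p ≠ 0 := by
    intro h0
    have h1 : p.coeff D = c D := by
      rw [hp, Polynomial.finsetSum_coeff, Finset.sum_eq_single D]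
      · simp
      · intro b _ hb
        rw [Polynomial.coeff_C_mul, Polynomial.coeff_X_pow, if_neg hb.symm, mul_zero]
      · simp
    rw [h0, Polynomial.coeff_zero] at h1
    exact hc h1.symm
  have h1 : ∀ z, g z ≠ 0 → p.eval (f z / g z) = 0 := by
    intro z hz
    have h2 : g z ^ D * p.eval (f z / g z) =
        ∑ s ∈ Finset.range (D + 1), c s * f z ^ s * g z ^ (D - s) := by
      rw [hp, Polynomial.eval_finsetSum, Finset.mul_sum]
      refine Finset.sum_congr rfl fun s hs => ?_
      have hs' : s ≤ D := Nat.lt_succ_iff.1 (Finset.mem_range.1 hs)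
      rw [Polynomial.eval_mul, Polynomial.eval_C, Polynomial.eval_pow, Polynomial.eval_X, div_pow]
      have h3 : g z ^ D = g z ^ s * g z ^ (D - s) := by rw [← pow_add, Nat.add_sub_cancel' hs']
      rw [h3]
      have h4 : g z ^ s ≠ 0 := pow_ne_zero _ hz
      field_simp
    rw [h z] at h2
    exact (mul_eq_zero.1 h2).resolve_left (pow_ne_zero _ hz)
  have h2 : ∀ z, ∏ o ∈ Finset.insertNone p.roots.toFinset,
      (Option.elim o g (fun ρ z => f z - ρ * g z) : ℂ → ℂ) z = 0 := by
    intro z
    rw [Finset.prod_insertNone]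
    by_cases hz : g z = 0
    · simp [hz]
    · have h3 : ∏ ρ ∈ p.roots.toFinset, (f z - ρ * g z) = 0 := by
        refine Finset.prod_eq_zero (i := f z / g z) ?_ ?_
        · rw [Multiset.mem_toFinset, Polynomial.mem_roots hp0]
          exact h1 z hz
        · field_simp
          ring
      change g z * ∏ ρ ∈ p.roots.toFinset, (f z - ρ * g z) = 0
      rw [h3, mul_zero]
  obtain ⟨o, -, ho⟩ := prod_zero _ (fun o => (Option.elim o g (fun ρ z => f z - ρ * g z) : ℂ → ℂ))
    (fun o _ => by
      rcases o with _ | ρ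
      · exact hg
      · exact hf.sub (hg.const_mul ρ)) h2
  rcases o with _ | ρ
  · exact absurd (ho z1) hz1
  · exact ⟨ρ, fun z => sub_eq_zero.1 (ho z)⟩

theorem wh_pair {σ M : Type} [AddCommMonoid M] {R : Type} [CommSemiring R] {w : σ → M}
    {φ : MvPolynomial σ R} {m : M} (h : φ.IsWeightedHomogeneous w m) :
    φ.IsWeightedHomogeneous (fun s => ((0 : ℕ), w s)) (0, m) := by
  intro d hd
  have h1 := h hd
  rw [← h1, Finsupp.weight_apply, Finsupp.weight_apply, Finsupp.sum, Finsupp.sum]
  apply Prod.ext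
  · rw [Prod.fst_sum]
    simp
  · rw [Prod.snd_sum]
    simp

namespace Sys

variable {n r : ℕ} (S : Sys ℂ n r) {N : ℕ} {K : Type} [Field K] [Algebra ℂ K]

/-- the inclusion of the coordinates of the product of projective lines -/
def ρ (n r N : ℕ) (s : Fin n ⊕ Fin n) : Fin (N + 1) ⊕ ((Fin n ⊕ Fin n) ⊕ Fin r) :=
  Sum.inr (Sum.inl s)

theorem oform_rename {A : MvPolynomial (Fin n ⊕ Fin n) ℂ} {m : Fin n → ℕ}
    (hA : A.IsWeightedHomogeneous wt2 m) : S.OForm N (rename (ρ n r N) A) (0, m) :=
  rename_wh (ρ n r N) (fun s => by rcases s with j | j <;> rfl) (wh_pair hA)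

theorem oval_rename {F : Type} [Field F] [Algebra ℂ F] (v : Fin (N + 1) → F) (x y : Fin n → F)
    (w : Fin r → F) (A : MvPolynomial (Fin n ⊕ Fin n) ℂ) :
    oval ℂ v x y w (rename (ρ n r N) A) = aeval (Sum.elim x y) A := by
  unfold oval
  rw [aeval_rename]
  congr 1

/-- the relation between the coordinates of the projective space -/
noncomputable def rel (r : ℕ) {N : ℕ} (a b : Fin (N + 1)) (D : ℕ)
    (A : ℕ → MvPolynomial (Fin n ⊕ Fin n) ℂ) :
    MvPolynomial (Fin (N + 1) ⊕ ((Fin n ⊕ Fin n) ⊕ Fin r)) ℂ :=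
  ∑ s ∈ Finset.range (D + 1), rename (ρ n r N) (A s) * X (Sum.inl a) ^ s * X (Sum.inl b) ^ (D - s)

theorem oform_rel {a b : Fin (N + 1)} {D : ℕ} {A : ℕ → MvPolynomial (Fin n ⊕ Fin n) ℂ}
    {m : Fin n → ℕ} (hA : ∀ s ≤ D, (A s).IsWeightedHomogeneous wt2 m) :
    S.OForm N (rel r a b D A) (D, m) := by
  unfold rel OForm
  refine IsWeightedHomogeneous.sum _ _ _ fun s hs => ?_
  have hs' : s ≤ D := Nat.lt_succ_iff.1 (Finset.mem_range.1 hs)
  have h1 := ((S.oform_rename (N := N) (hA s hs')).mul
    ((isWeightedHomogeneous_X ℂ (S.oweight N) (Sum.inl a)).pow s)).mul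
    ((isWeightedHomogeneous_X ℂ (S.oweight N) (Sum.inl b)).pow (D - s))
  convert h1 using 1
  simp only [oweight, Sum.elim_inl]
  apply Prod.ext
  · simp only [Prod.fst_add, Prod.smul_fst, smul_eq_mul, mul_one, zero_add]
    omega
  · simp

theorem oval_rel {F : Type} [Field F] [Algebra ℂ F] (v : Fin (N + 1) → F) (x y : Fin n → F)
    (w : Fin r → F) (a b : Fin (N + 1)) (D : ℕ) (A : ℕ → MvPolynomial (Fin n ⊕ Fin n) ℂ) :
    oval ℂ v x y w (rel r a b D A) =
      ∑ s ∈ Finset.range (D + 1), aeval (Sum.elim x y) (A s) * v a ^ s * v b ^ (D - s) := by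
  have h1 := fun s => oval_rename v x y w (A s)
  unfold oval at h1
  unfold oval rel
  rw [map_sum]
  refine Finset.sum_congr rfl fun s _ => ?_
  rw [map_mul, map_mul, h1 s, map_pow, map_pow, aeval_X, aeval_X]
  rfl

/-- the scaling factors of a constant map -/
theorem const_scale {X Y : Fin n → ℂ → ℂ} (hne : ∀ j z, X j z ≠ 0 ∨ Y j z ≠ 0)
    (hc : ConstantMap X Y) (z z1 : ℂ) : ∃ t : Fin n → ℂ, (∀ j, t j ≠ 0) ∧
      (∀ j, X j z = t j * X j z1) ∧ ∀ j, Y j z = t j * Y j z1 := by
  have h1 : ∀ j, ∃ t : ℂ, t ≠ 0 ∧ X j z = t * X j z1 ∧ Y j z = t * Y j z1 := by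
    intro j
    have h2 := hc j z z1
    have h3 : ∃ t : ℂ, X j z = t * X j z1 ∧ Y j z = t * Y j z1 := by
      by_cases h0 : X j z1 = 0
      · have h4 : Y j z1 ≠ 0 := (hne j z1).resolve_left (not_not.2 h0)
        refine ⟨Y j z / Y j z1, ?_, by field_simp⟩
        rw [h0, zero_mul] at h2
        rw [h0, mul_zero]
        exact (mul_eq_zero.1 h2).resolve_right h4
      · refine ⟨X j z / X j z1, by field_simp, ?_⟩
        field_simp
        rw [h2]
        ring
    obtain ⟨t, ht1, ht2⟩ := h3
    refine ⟨t, ?_, ht1, ht2⟩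
    rintro rfl
    rw [zero_mul] at ht1 ht2
    rcases hne j z with h | h
    · exact h ht1
    · exact h ht2
  choose t ht using h1
  exact ⟨t, fun j => (ht j).1, fun j => (ht j).2.1, fun j => (ht j).2.2⟩

/-- **Varieties over the system are pseudo-Brody hyperbolic.** -/
theorem brody_over (hS : S.Good) {v : Fin (N + 1) → K} {x y : Fin n → K} {w : Fin r → K}
    (hv : ∃ b, v b ≠ 0) (halg : GenFinite ℂ x y) {i : Fin r} (hi : w i ≠ 0) :
    S.OPseudoBrody v x y w := by
  classical
  obtain ⟨b, hb⟩ := hv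
  choose D δ A hA hrel hlead using fun a => relation x y halg (v a / v b)
  have hR0 : ∀ a, oval ℂ v x y w (rel r a b (D a) (A a)) = 0 := by
    intro a
    rw [oval_rel]
    have h1 : ∑ s ∈ Finset.range (D a + 1), aeval (Sum.elim x y) (A a s) * v a ^ s *
        v b ^ (D a - s) = v b ^ (D a) * ∑ s ∈ Finset.range (D a + 1),
        aeval (Sum.elim x y) (A a s) * (v a / v b) ^ s := by
      rw [Finset.mul_sum]
      refine Finset.sum_congr rfl fun s hs => ?_
      have hs' : s ≤ D a := Nat.lt_succ_iff.1 (Finset.mem_range.1 hs)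
      have h3 : v b ^ (D a) = v b ^ s * v b ^ (D a - s) := by
        rw [← pow_add, Nat.add_sub_cancel' hs']
      rw [h3, div_pow]
      have h4 : v b ^ s ≠ 0 := pow_ne_zero _ hb
      field_simp
    rw [h1, hrel a, mul_zero]
  have hform := ((isWeightedHomogeneous_X ℂ (S.oweight N) (Sum.inl b)).mul
    (isWeightedHomogeneous_X ℂ (S.oweight N) (Sum.inr (Sum.inr i)))).mul
    (IsWeightedHomogeneous.prod (w := S.oweight N) (Finset.univ : Finset (Fin (N + 1)))
      (fun a => rename (ρ n r N) (A a (D a))) (fun a => (0, dD y (δ a)))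
      fun a _ => S.oform_rename (N := N) (hA a (D a) le_rfl))
  have hGval : ∀ {F : Type} [Field F] [Algebra ℂ F] (v' : Fin (N + 1) → F) (x' y' : Fin n → F)
      (w' : Fin r → F), oval ℂ v' x' y' w'
        (X (Sum.inl b) * X (Sum.inr (Sum.inr i)) * ∏ a, rename (ρ n r N) (A a (D a))) =
        v' b * w' i * ∏ a, aeval (Sum.elim x' y') (A a (D a)) := by
    intro F _ _ v' x' y' w'
    have h1 := fun a => oval_rename v' x' y' w' (A a (D a))
    unfold oval at h1
    unfold oval
    rw [map_mul, map_mul, aeval_X, aeval_X, map_prod]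
    congr 1
    exact Finset.prod_congr rfl fun a _ => h1 a
  refine ⟨_, _, hform, ?_, fun V X' Y' W hV hne hE hvan => ?_⟩
  · rw [hGval]
    exact mul_ne_zero (mul_ne_zero hb hi) (Finset.prod_ne_zero_iff.2 fun a _ => hlead a)
  · by_cases hc : ConstantMap X' Y'
    · by_cases hG : ∀ z, oval ℂ (fun i => V i z) (fun j => X' j z) (fun j => Y' j z)
          (fun i => W i z)
          (X (Sum.inl b) * X (Sum.inr (Sum.inr i)) * ∏ a, rename (ρ n r N) (A a (D a))) = 0
      · exact Or.inr hG
      · left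
        push Not at hG
        obtain ⟨z1, hz1⟩ := hG
        rw [hGval] at hz1
        obtain ⟨h1, h2⟩ := mul_ne_zero_iff.1 hz1
        have hVb : V b z1 ≠ 0 := (mul_ne_zero_iff.1 h1).1
        have hlc : ∀ a, aeval (Sum.elim (fun j => X' j z1) fun j => Y' j z1) (A a (D a)) ≠ 0 :=
          fun a => Finset.prod_ne_zero_iff.1 h2 a (Finset.mem_univ a)
        have hprop : ∀ a, ∃ ρ : ℂ, ∀ z, V a z = ρ * V b z := by
          intro a
          refine proportional (hV a) (hV b) hVb (D a)
            (fun s => aeval (Sum.elim (fun j => X' j z1) fun j => Y' j z1) (A a s)) (hlc a) fun z => ?_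
          obtain ⟨t, ht, htx, hty⟩ := const_scale (fun j z => (hE.point z).ne j) hc z z1
          have h3 := hvan _ _ (S.oform_rel (a := a) (b := b) (hA a)) (hR0 a) z
          rw [oval_rel] at h3
          have h4 : ∑ s ∈ Finset.range (D a + 1),
              aeval (Sum.elim (fun j => X' j z) fun j => Y' j z) (A a s) * V a z ^ s *
                V b z ^ (D a - s) = (∏ j, t j ^ dD y (δ a) j) * ∑ s ∈ Finset.range (D a + 1),
              aeval (Sum.elim (fun j => X' j z1) fun j => Y' j z1) (A a s) * V a z ^ s *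
                V b z ^ (D a - s) := by
            rw [Finset.mul_sum]
            refine Finset.sum_congr rfl fun s hs => ?_
            have hs' : s ≤ D a := Nat.lt_succ_iff.1 (Finset.mem_range.1 hs)
            have h5 := scale2 t (fun j => X' j z1) (fun j => Y' j z1) (hA a s hs')
            simp only [← htx, ← hty] at h5
            rw [h5]
            ring
          rw [h4] at h3
          exact (mul_eq_zero.1 h3).resolve_left
            (Finset.prod_ne_zero_iff.2 fun j _ => pow_ne_zero _ (ht j))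
        choose ρ' hρ' using hprop
        refine ⟨fun i i' z z' => ?_, hc⟩
        rw [hρ' i z, hρ' i' z', hρ' i' z, hρ' i z']
        ring
    · right
      intro z
      rw [hGval, S.entire hS hE hc i z]
      simp

end Sys

end Pool.Agent.P8H50.SG
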