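import Pool.Agent.P8H50.SG.Defs
import Pool.Agent.W603.LV.Hgt

/-!
Systems of cyclic covers of a product of projective lines: algebraic notions of hyperbolicity for
their closed subsets (helper50).
-/

set_option autoImplicit false

namespace Pool.Agent.P8H50.SG

open MvPolynomial FF Pool.Agent.W603.LV Pool.Agent.W602.GT

namespace Sys

variable {k : Type} [Field k] {n r : ℕ} (S : Sys k n r)

section
variable {K : Type} [Field K] [Algebra k K]

/-- `(x, y, w)` are homogeneous coordinates of a `K`-valued point of the closed subset `V` of `X`
which is given by the set `Φ` of forms. -/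
structure PointIn (Φ : Set (MvPolynomial ((Fin n ⊕ Fin n) ⊕ Fin r) k)) (x y : Fin n → K)
    (w : Fin r → K) : Prop where
  point : S.Point x y w
  zero : ∀ F ∈ Φ, val k x y w F = 0

variable (k) in
/-- The degree, with respect to `O(1, …, 1)`, of the morphism with the homogeneous coordinates
`(x, y, w)` from the curve with function field `K` to `X`: the sum of the degrees of the maps
`x j : y j` to the projective line. Here `hgt k g` is the degree of `g`, the number of its poles with
multiplicities. -/
noncomputable def _root_.Pool.Agent.P8H50.SG.degree {n : ℕ} (x y : Fin n → K) : ℤ :=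
  ∑ j, hgt k (x j / y j)

end

/-- The constants `A` for which the degrees of curves are bounded by `A max (2 g - 2, 0)`. -/
def Bound (A : ℕ) : Prop := ∀ i, ∃ (M : ℕ) (c : Fin n → ℕ), ∑ j, c j ≤ M ∧ ∑ j, c j ≤ A ∧
  ∀ j, M * S.deg i j < c j * (S.q i j - 2)

variable (Φ : Set (MvPolynomial ((Fin n ⊕ Fin n) ⊕ Fin r) k))

/-- `V` is algebraically hyperbolic: all morphisms to `V` from smooth projective curves of genus `g`
have degree at most `A max (2 g - 2, 0)`. The curves are given by their function fields `K`, and
`canDeg k K = 2 g - 2`. -/
def AlgHyperbolic (A : ℕ) : Prop := ∀ (K : Type) [Field K] [Algebra k K] [IsFF k K]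
  (x y : Fin n → K) (w : Fin r → K), S.PointIn Φ x y w → degree k x y ≤ A * max (canDeg k K) 0

/-- For each smooth projective curve, the degrees of the morphisms from this curve to `V` are
bounded. -/
def BoundedOnCurves : Prop := ∀ (K : Type) [Field K] [Algebra k K] [IsFF k K], ∃ B : ℤ,
  ∀ (x y : Fin n → K) (w : Fin r → K), S.PointIn Φ x y w → degree k x y ≤ B

/-- All morphisms from the multiplicative group to `V` are constant. (They have homogeneous
coordinates which are polynomials.) -/
def GmConstant : Prop := ∀ (x y : Fin n → Polynomial k) (w : Fin r → Polynomial k),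
  (∀ t : k, t ≠ 0 → S.PointIn Φ (fun j => (x j).eval t) (fun j => (y j).eval t)
    fun i => (w i).eval t) →
  ∀ j (t t' : k), t ≠ 0 → t' ≠ 0 → (x j).eval t * (y j).eval t' = (x j).eval t' * (y j).eval t

/-- All closed subvarieties of positive dimension of `V` are of general type. -/
def AllGeneralType : Prop := ∀ (K : Type) [Field K] [Algebra k K] (d : ℕ) (x y : Fin n → K)
  (w : Fin r → K), 1 ≤ d → S.Subvariety d x y w → (∀ F ∈ Φ, val k x y w F = 0) →
  GeneralType k K d

/-- `V` contains a line: the curve where the `w i` vanish and all coordinates `x j : y j` but the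
`j0`-th one are constant. (The points with `y j0 = 1` are in `V`, and `V` is closed.) -/
def ContainsLine : Prop := ∃ (j0 : Fin n) (c c' : Fin n → k), ∀ s : k,
  S.PointIn (K := k) Φ (Function.update c j0 s) (Function.update c' j0 1) fun _ => 0

end Sys

end Pool.Agent.P8H50.SG
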