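import Pool.Agent.W602.GT.KCore

/-!
Systems over grids (helper50): the local form of the differential `du / ∏ (a l * u + b l)`.
-/

set_option autoImplicit false

open FF Pool.Agent.W603.LV Pool.Agent.W602.GT

namespace Pool.Agent.P8H50.SG

variable {k K : Type} [Field k] [Field K] [Algebra k K]

/-- the linear function `a * u + b` -/
def lf (a b : k) (u : K) : K := algebraMap k K a * u + algebraMap k K b

/-- the order of the pole of `u` -/
def nu (P : Place k K) (u : K) : ℤ := max (-P.ord u) 0

theorem nu_nonneg (P : Place k K) (u : K) : 0 ≤ nu P u := le_max_right _ _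

theorem ge_of_ord {P : Place k K} {n : ℤ} {f : K} (h : n ≤ P.ord f) : Ge P n f := Or.inr h

theorem ord_of_ge {P : Place k K} {n : ℤ} {f : K} (hf : f ≠ 0) (h : Ge P n f) : n ≤ P.ord f :=
  h.resolve_left hf

theorem ge_u (P : Place k K) (u : K) : Ge P (-(nu P u)) u := by
  refine Or.inr ?_
  unfold nu
  have := le_max_left (-P.ord u) 0
  omega

theorem ge_lf (P : Place k K) (a b : k) (u : K) : Ge P (-(nu P u)) (lf a b u) := by
  have h0 := nu_nonneg P u
  refine Ge.add ?_ ((Ge.const (P := P) b).mono (by omega))
  have := (Ge.const (P := P) a).mul (ge_u P u)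
  rwa [zero_add] at this

theorem ord_lf_nonneg (P : Place k K) (a b : k) (u : K) (h : lf a b u ≠ 0) :
    0 ≤ P.ord (lf a b u) + nu P u := by
  have := ord_of_ge h (ge_lf P a b u)
  omega

theorem der_lf (D : Derivation k K K) (a b : k) (u : K) :
    D (lf a b u) = algebraMap k K a * D u := by
  unfold lf
  rw [map_add, D.leibniz, D.map_algebraMap, D.map_algebraMap]
  simp

/-- the local form of a column -/
theorem col {q : ℕ} (a b : Fin q → k) (hab : ∀ l l', l ≠ l' → a l * b l' ≠ a l' * b l)
    (P : Place k K) (u : K) (hu : u ≠ 0) (hL : ∀ l, lf (a l) (b l) u ≠ 0) :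
    ∃ v h : K, v ≠ 0 ∧ h ≠ 0 ∧
      (∀ D : Derivation k K K, D u / ∏ l, lf (a l) (b l) u = h * (D v / v)) ∧
      ((q : ℤ) - 2) * nu P u ≤ P.ord h ∧
      ((∀ l, P.ord (lf (a l) (b l) u) + nu P u ≤ 0) → P.ord v = 0) := by
  classical
  have hR : (∏ l, lf (a l) (b l) u) ≠ 0 := Finset.prod_ne_zero_iff.2 fun l _ => hL l
  have hordR : P.ord (∏ l, lf (a l) (b l) u) = ∑ l, P.ord (lf (a l) (b l) u) :=
    ord_prod' P _ _ fun l _ => hL l
  rcases le_or_gt 0 (P.ord u) with h0 | h0
  · have hnu : nu P u = 0 := by
      unfold nu
      exact max_eq_right (by omega)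
    by_cases hall : ∀ l, P.ord (lf (a l) (b l) u) ≤ 0
    · -- no root
      have h1 : ∀ l, P.ord (lf (a l) (b l) u) = 0 := by
        intro l
        have := ord_lf_nonneg P (a l) (b l) u (hL l)
        have := hall l
        omega
      obtain ⟨v, hv0, hv1, hv2⟩ : ∃ v : K, v ≠ 0 ∧ P.ord v = 0 ∧
          ∀ D : Derivation k K K, D v = D u := by
        rcases eq_or_lt_of_le h0 with h2 | h2
        · exact ⟨u, hu, h2.symm, fun D => rfl⟩
        · have h3 := P.ord_add_eq (f := (-1 : K)) (g := u) (by simp) hu
            (by rw [P.ord_neg_one]; exact h2)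
          refine ⟨-1 + u, h3.1, by rw [h3.2, P.ord_neg_one], fun D => ?_⟩
          rw [map_add, map_neg, D.map_one_eq_zero, neg_zero, zero_add]
      refine ⟨v, v / ∏ l, lf (a l) (b l) u, hv0, div_ne_zero hv0 hR, fun D => ?_, ?_, fun _ => hv1⟩
      · rw [hv2 D]
        field_simp
      · rw [P.ord_div hv0 hR, hordR, hv1, hnu, Finset.sum_eq_zero fun l _ => h1 l]
        simp
    · push Not at hall
      obtain ⟨l0, hl0⟩ := hall
      have ha : a l0 ≠ 0 := by
        intro h
        have h2 : lf (a l0) (b l0) u = algebraMap k K (b l0) := by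
          unfold lf
          rw [h]; simp
        have h3 : b l0 ≠ 0 := by
          intro hb
          apply hL l0
          rw [h2, hb, map_zero]
        rw [h2, P.ord_const h3] at hl0
        omega
      have haK : algebraMap k K (a l0) ≠ 0 := (_root_.map_ne_zero _).2 ha
      have hS : (∏ l ∈ Finset.univ.erase l0, lf (a l) (b l) u) ≠ 0 :=
        Finset.prod_ne_zero_iff.2 fun l _ => hL l
      have hsplit : ∏ l, lf (a l) (b l) u =
          lf (a l0) (b l0) u * ∏ l ∈ Finset.univ.erase l0, lf (a l) (b l) u :=
        (Finset.mul_prod_erase _ _ (Finset.mem_univ l0)).symm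
      refine ⟨lf (a l0) (b l0) u, (algebraMap k K (a l0))⁻¹ *
        (∏ l ∈ Finset.univ.erase l0, lf (a l) (b l) u)⁻¹, hL l0,
        mul_ne_zero (inv_ne_zero haK) (inv_ne_zero hS), fun D => ?_, ?_, fun h => ?_⟩
      · rw [der_lf, hsplit]
        have := hL l0
        field_simp
      · rw [P.ord_mul (inv_ne_zero haK) (inv_ne_zero hS), P.ord_inv, P.ord_inv, P.ord_const ha,
          ord_prod' P _ _ fun l _ => hL l, hnu]
        have h1 : ∑ l ∈ Finset.univ.erase l0, P.ord (lf (a l) (b l) u) ≤ 0 := by
          refine Finset.sum_nonpos fun l hl => ?_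
          by_contra hcon
          push Not at hcon
          have hne : l ≠ l0 := (Finset.mem_erase.1 hl).1
          have h2 : algebraMap k K (a l) * lf (a l0) (b l0) u
              - algebraMap k K (a l0) * lf (a l) (b l) u
              = algebraMap k K (a l * b l0 - a l0 * b l) := by
            unfold lf
            rw [map_sub, map_mul, map_mul]
            ring
          have h3 : Ge P 1 (algebraMap k K (a l * b l0 - a l0 * b l)) := by
            rw [← h2]
            refine Ge.sub ?_ ?_
            · have := (Ge.const (P := P) (a l)).mul (ge_of_ord (P := P) (n := 1)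
                (f := lf (a l0) (b l0) u) (by omega))
              rwa [zero_add] at this
            · have := (Ge.const (P := P) (a l0)).mul (ge_of_ord (P := P) (n := 1)
                (f := lf (a l) (b l) u) (by omega))
              rwa [zero_add] at this
          have h4 : a l * b l0 - a l0 * b l ≠ 0 := sub_ne_zero.2 (hab l l0 hne)
          have h5 := ord_of_ge ((_root_.map_ne_zero _).2 h4) h3
          rw [P.ord_const h4] at h5
          omega
        simp only [mul_zero]
        omega
      · have := h l0
        rw [hnu] at this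
        omega
  · have hnu : nu P u = -P.ord u := by
      unfold nu
      exact max_eq_left (by omega)
    have ht0 : u⁻¹ ≠ 0 := inv_ne_zero hu
    have ht : P.ord u⁻¹ = nu P u := by rw [P.ord_inv, hnu]
    have hnpos : 0 < nu P u := by omega
    have hLa : ∀ l, a l ≠ 0 → P.ord (lf (a l) (b l) u) = -(nu P u) := by
      intro l hal
      have haK : algebraMap k K (a l) ≠ 0 := (_root_.map_ne_zero _).2 hal
      have h1 : P.ord (algebraMap k K (a l) * u) = -(nu P u) := by
        rw [P.ord_mul haK hu, P.ord_const hal, hnu]; ring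
      by_cases hb : b l = 0
      · unfold lf
        rw [hb, map_zero, add_zero, h1]
      · have h2 := P.ord_add_eq (f := algebraMap k K (a l) * u) (g := algebraMap k K (b l))
          (mul_ne_zero haK hu) ((_root_.map_ne_zero _).2 hb) (by rw [h1, P.ord_const hb]; omega)
        unfold lf
        rw [h2.2, h1]
    have hDinv : ∀ D : Derivation k K K, D u⁻¹ = -(D u) / u ^ 2 := by
      intro D
      rw [D.leibniz_inv]
      simp only [smul_eq_mul]
      field_simp
    by_cases hall : ∀ l, a l ≠ 0
    · have h3 := P.ord_add_eq (f := (1 : K)) (g := u⁻¹) one_ne_zero ht0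
        (by rw [P.ord_one, ht]; exact hnpos)
      refine ⟨1 + u⁻¹, -(u ^ 2 * (1 + u⁻¹)) / ∏ l, lf (a l) (b l) u, h3.1,
        div_ne_zero (neg_ne_zero.2 (mul_ne_zero (pow_ne_zero _ hu) h3.1)) hR, fun D => ?_, ?_,
        fun _ => by rw [h3.2, P.ord_one]⟩
      · rw [map_add, D.map_one_eq_zero, zero_add, hDinv]
        have := h3.1
        generalize 1 + u⁻¹ = v at this ⊢
        field_simp
      · rw [P.ord_div (neg_ne_zero.2 (mul_ne_zero (pow_ne_zero _ hu) h3.1)) hR, P.ord_neg,
          P.ord_mul (pow_ne_zero _ hu) h3.1, P.ord_pow, h3.2, P.ord_one, hordR,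
          Finset.sum_congr rfl fun l _ => hLa l (hall l)]
        rw [Finset.sum_const, Finset.card_univ, Fintype.card_fin, hnu]
        push_cast
        simp only [nsmul_eq_mul]
        apply le_of_eq
        ring
    · push Not at hall
      obtain ⟨l0, hl0⟩ := hall
      have hb : b l0 ≠ 0 := by
        intro hb
        apply hL l0
        unfold lf
        rw [hl0, hb]; simp
      have hL0 : P.ord (lf (a l0) (b l0) u) = 0 := by
        unfold lf
        rw [hl0, map_zero, zero_mul, zero_add, P.ord_const hb]
      refine ⟨u⁻¹, -u / ∏ l, lf (a l) (b l) u, ht0, div_ne_zero (neg_ne_zero.2 hu) hR,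
        fun D => ?_, ?_, fun h => ?_⟩
      · rw [hDinv]
        field_simp
      · rw [P.ord_div (neg_ne_zero.2 hu) hR, P.ord_neg, hordR,
          ← Finset.add_sum_erase _ _ (Finset.mem_univ l0), hL0,
          Finset.sum_congr rfl fun l hl => hLa l (fun h => by
            have := hab l l0 (Finset.mem_erase.1 hl).1
            rw [h, hl0] at this
            simp at this)]
        have hq : 1 ≤ q := Nat.one_le_iff_ne_zero.2 fun h => by
          subst h
          exact l0.elim0
        rw [Finset.sum_const, Finset.card_erase_of_mem (Finset.mem_univ l0), Finset.card_univ,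
          Fintype.card_fin, nsmul_eq_mul, Nat.cast_sub hq, hnu]
        push_cast
        apply le_of_eq
        ring
      · have := h l0
        rw [hL0] at this
        omega

end Pool.Agent.P8H50.SG
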