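import Pool.Agent.W602.GT.Defs

/-!
Systems of cyclic covers of a product of projective lines: definitions (helper50).
-/

set_option autoImplicit false

namespace Pool.Agent.P8H50.SG

open MvPolynomial

/-- The data of a system of `r` equations
`w i ^ m i = ∏ j, ∏ l, (a i j l * x j + b i j l * y j) ^ e i j l` over the product of `n` projective
lines, with the homogeneous coordinates `x j : y j`. -/
structure Sys (k : Type) (n r : ℕ) where
  /-- the order of the `i`-th cover -/
  m : Fin r → ℕ
  /-- the number of the branch points of the `i`-th cover in the `j`-th line -/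
  q : Fin r → Fin n → ℕ
  /-- the first coefficients of the linear forms -/
  a : ∀ i j, Fin (q i j) → k
  /-- the second coefficients of the linear forms -/
  b : ∀ i j, Fin (q i j) → k
  /-- the exponents -/
  e : ∀ i j, Fin (q i j) → ℕ

namespace Sys

variable {k : Type} [Field k] {n r : ℕ} (S : Sys k n r)

/-- The hypotheses. For each `j` the linear forms `a i j l * X + b i j l * Y` (for all `i` and `l`) are
pairwise independent, there are at least three of them for each `i`, the exponents are positive,
`m i` divides the degree of the `i`-th right hand side in each pair of variables `x j, y j`, and the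
sum over `j` of the quotients (degree in `x j, y j`) / (number of branch points in the `j`-th line
minus two) is less than `m i`. -/
structure Good : Prop where
  three : ∀ i j, 3 ≤ S.q i j
  pos : ∀ i j l, 1 ≤ S.e i j l
  dvd : ∀ i j, S.m i ∣ ∑ l, S.e i j l
  small : ∀ i, ∑ j, (∑ l, (S.e i j l : ℝ)) / ((S.q i j : ℝ) - 2) < S.m i
  indep : ∀ j, ∀ s t : (i : Fin r) × Fin (S.q i j), s ≠ t →
    S.a s.1 j s.2 * S.b t.1 j t.2 ≠ S.a t.1 j t.2 * S.b s.1 j s.2

variable {K : Type} [Field K] [Algebra k K]

/-- the right hand side of the `i`-th equation -/
def rhs (i : Fin r) (x y : Fin n → K) : K :=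
  ∏ j, ∏ l, (algebraMap k K (S.a i j l) * x j + algebraMap k K (S.b i j l) * y j) ^ S.e i j l

/-- `(x, y, w)` are homogeneous coordinates of a `K`-valued point of the variety `X` of the system:
`x j : y j` are points of the projective line, and the equations hold. -/
structure Point (x y : Fin n → K) (w : Fin r → K) : Prop where
  ne : ∀ j, x j ≠ 0 ∨ y j ≠ 0
  eq : ∀ i, w i ^ S.m i = S.rhs i x y

/-- the multidegree of `w i`: the degree of the `i`-th right hand side in the variables `x j, y j`,
divided by `m i` -/
def deg (i : Fin r) (j : Fin n) : ℕ := (∑ l, S.e i j l) / S.m i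

/-- the multidegrees of the coordinates `x j`, `y j` (the `j`-th unit vector) and `w i` -/
def weight : (Fin n ⊕ Fin n) ⊕ Fin r → Fin n → ℕ :=
  Sum.elim (Sum.elim (fun j => Pi.single j 1) fun j => Pi.single j 1) S.deg

/-- `G` is a form of multidegree `d` in the coordinates -/
def IsForm (G : MvPolynomial ((Fin n ⊕ Fin n) ⊕ Fin r) k) (d : Fin n → ℕ) : Prop :=
  G.IsWeightedHomogeneous S.weight d

omit [Field k] [Field K] [Algebra k K] in
/-- all coordinates in one family -/
def _root_.Pool.Agent.P8H50.SG.pt {A : Type} {n r : ℕ} (x y : Fin n → A) (w : Fin r → A) :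
    (Fin n ⊕ Fin n) ⊕ Fin r → A := Sum.elim (Sum.elim x y) w

variable (k) in
/-- the value of `G` at `(x, y, w)` -/
noncomputable def _root_.Pool.Agent.P8H50.SG.val {n r : ℕ} (x y : Fin n → K) (w : Fin r → K)
    (G : MvPolynomial ((Fin n ⊕ Fin n) ⊕ Fin r) k) : K := aeval (pt x y w) G

/-- The quotients of the values of two forms of the same multidegree: the restrictions of the
rational functions on the ambient space to the closed subvariety with the generic point
`(x, y, w)`. -/
def ratios (x y : Fin n → K) (w : Fin r → K) : Set K :=
  {g | ∃ G H d, S.IsForm G d ∧ S.IsForm H d ∧ val k x y w H ≠ 0 ∧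
    g = val k x y w G / val k x y w H}

/-- `K` is the function field, and `(x, y, w)` the generic point, of a closed subvariety `V` of
dimension `d` of `X`. The points of `V` are the common zeros of the forms which vanish at
`(x, y, w)`. -/
structure Subvariety (d : ℕ) (x y : Fin n → K) (w : Fin r → K) : Prop where
  point : S.Point x y w
  gen : IntermediateField.adjoin k (S.ratios x y w) = ⊤
  dim : Algebra.trdeg k K = d

end Sys

variable {n r : ℕ} (S : Sys ℂ n r)

/-- `x`, `y`, `w` are the homogeneous coordinates of a holomorphic map from the complex plane to the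
variety `X` of the system `S`. (Every such map has homogeneous coordinates which are entire
functions, since the line bundles on the plane are trivial.) -/
structure Sys.Entire (x y : Fin n → ℂ → ℂ) (w : Fin r → ℂ → ℂ) : Prop where
  x_diff : ∀ j, Differentiable ℂ (x j)
  y_diff : ∀ j, Differentiable ℂ (y j)
  w_diff : ∀ i, Differentiable ℂ (w i)
  point : ∀ z, S.Point (K := ℂ) (fun j => x j z) (fun j => y j z) fun i => w i z

/-- The map is constant. (The projection from `X` to the product of the projective lines is finite,
so a map to `X` is constant if and only if all the ratios `x j : y j` are constant.) -/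
def ConstantMap (x y : Fin n → ℂ → ℂ) : Prop :=
  ∀ j z z', x j z * y j z' = x j z' * y j z

/-- The closed subvariety `V` of `X` with the generic point `(x, y, w)` is pseudo-Brody hyperbolic:
some form which does not vanish on `V` vanishes on all nonconstant entire curves in `V`. -/
def Sys.PseudoBrody {K : Type} [Field K] [Algebra ℂ K] (x y : Fin n → K) (w : Fin r → K) : Prop :=
  ∃ G d, S.IsForm G d ∧ val ℂ x y w G ≠ 0 ∧
    ∀ (X Y : Fin n → ℂ → ℂ) (W : Fin r → ℂ → ℂ), S.Entire X Y W →
      (∀ H c, S.IsForm H c → val ℂ x y w H = 0 →
        ∀ z, val ℂ (fun j => X j z) (fun j => Y j z) (fun i => W i z) H = 0) →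
      ConstantMap X Y ∨ ∀ z, val ℂ (fun j => X j z) (fun j => Y j z) (fun i => W i z) G = 0

end Pool.Agent.P8H50.SG
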