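import Pool.Agent.P8H50.SG.Zero
import Pool.Agent.P8H10.GC6

/-!
Systems over grids (helper50): entire curves.
-/

set_option autoImplicit false

open FF Pool.Agent.W603.LV Pool.Agent.W602.GT MvPolynomial

namespace Pool.Agent.P8H50.SG

theorem cover_q {n : ℕ} (q : Fin n → ℕ) (hq : ∀ j, 3 ≤ q j) (a b : ∀ j, Fin (q j) → ℂ)
    (hab : ∀ j l l', l ≠ l' → a j l * b j l' ≠ a j l' * b j l)
    (e : ∀ j, Fin (q j) → ℕ) (he : ∀ j l, 1 ≤ e j l) (m : ℕ)
    (hm : ∑ j, (∑ l, (e j l : ℝ)) / ((q j : ℝ) - 2) < m) (x y : Fin n → ℂ → ℂ)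
    (hx : ∀ j, Differentiable ℂ (x j)) (hy : ∀ j, Differentiable ℂ (y j))
    (hxy : ∀ j z, x j z ≠ 0 ∨ y j z ≠ 0) (w : ℂ → ℂ) (hw : Differentiable ℂ w)
    (hwm : ∀ z, w z ^ m = ∏ j, ∏ l, (a j l * x j z + b j l * y j z) ^ e j l) :
    (∀ z, w z = 0) ∨ ConstantMap x y := by
  obtain ⟨p, rfl⟩ : ∃ p : Fin n → ℕ, q = fun j => p j + 2 :=
    ⟨fun j => q j - 2, by funext j; have := hq j; dsimp only; omega⟩
  refine Pool.Agent.P8H10.GC.cover p (fun j => by have : 3 ≤ p j + 2 := hq j; omega) a b
    (fun j l l' h => sub_ne_zero.2 (hab j l l' h)) e he m ?_ x y hx hy hxy w hw hwm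
  convert hm using 3 with j
  push_cast
  ring

namespace Sys

variable {n r : ℕ} (S : Sys ℂ n r)

/-- **Entire curves** are constant or lie in the zero locus. -/
theorem entire (hS : S.Good) {x y : Fin n → ℂ → ℂ} {w : Fin r → ℂ → ℂ} (h : S.Entire x y w)
    (hc : ¬ ConstantMap x y) (i : Fin r) (z : ℂ) : w i z = 0 := by
  refine (cover_q (S.q i) (hS.three i) (S.a i) (S.b i) (fun j l l' hl => ?_) (S.e i) (hS.pos i)
    (S.m i) (hS.small i) x y h.x_diff h.y_diff (fun j z => (h.point z).ne j) (w i) (h.w_diff i)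
    fun z => (h.point z).eq i).resolve_right hc z
  exact hS.indep j ⟨i, l⟩ ⟨i, l'⟩ (by simpa using hl)

/-- no nonconstant entire curves when `n ≤ r` -/
theorem entire_const (hS : S.Good) (hn : n ≤ r) {x y : Fin n → ℂ → ℂ} {w : Fin r → ℂ → ℂ}
    (h : S.Entire x y w) : ConstantMap x y := by
  classical
  by_contra hc
  have hw := fun i z => S.entire hS h hc i z
  -- some coordinate is not constant
  unfold ConstantMap at hc
  push Not at hc
  obtain ⟨j0, z1, z2, h12⟩ := hc
  -- at every point, all coordinates are special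
  have h1 : ∀ z, ∃ i l, S.a i j0 l * x j0 z + S.b i j0 l * y j0 z = 0 := by
    intro z
    obtain ⟨σ, hσ, hz⟩ := S.zero_sigma hS (h.point z) fun i => hw i z
    have h2 : Fintype.card (Fin r) = Fintype.card (Fin n) := by
      apply le_antisymm (Fintype.card_le_of_injective σ hσ)
      simpa using hn
    have h3 : Function.Surjective σ :=
      ((Fintype.bijective_iff_injective_and_card σ).2 ⟨hσ, h2⟩).2
    obtain ⟨i, hi⟩ := h3 j0
    obtain ⟨l, hl⟩ := hz i
    subst hi
    exact ⟨i, l, hl⟩
  -- the product of the forms vanishes identically, so one of the forms does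
  have h2 : ∃ i l, ∀ z, S.a i j0 l * x j0 z + S.b i j0 l * y j0 z = 0 := by
    by_contra hcon
    push Not at hcon
    have hd : ∀ i l, Differentiable ℂ fun z => S.a i j0 l * x j0 z + S.b i j0 l * y j0 z :=
      fun i l => ((h.x_diff j0).const_mul _).add ((h.y_diff j0).const_mul _)
    have h3 : ∀ i l, ∀ᶠ z in nhdsWithin 0 {0}ᶜ, S.a i j0 l * x j0 z + S.b i j0 l * y j0 z ≠ 0 := by
      intro i l
      rcases ((hd i l).analyticAt 0).eventually_eq_zero_or_eventually_ne_zero with h4 | h4
      · exfalso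
        obtain ⟨z, hz⟩ := hcon i l
        apply hz
        have h5 : AnalyticOnNhd ℂ (fun z => S.a i j0 l * x j0 z + S.b i j0 l * y j0 z) Set.univ :=
          fun z _ => (hd i l).analyticAt z
        exact h5.eqOn_zero_of_preconnected_of_eventuallyEq_zero isPreconnected_univ
          (Set.mem_univ 0) h4 (Set.mem_univ z)
      · exact h4
    have h4 : ∀ᶠ z in nhdsWithin (0 : ℂ) {0}ᶜ, ∀ i l,
        S.a i j0 l * x j0 z + S.b i j0 l * y j0 z ≠ 0 := by
      rw [Filter.eventually_all]
      intro i
      rw [Filter.eventually_all]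
      exact h3 i
    obtain ⟨z, hz⟩ := h4.exists
    obtain ⟨i, l, hil⟩ := h1 z
    exact hz i l hil
  obtain ⟨i, l, hil⟩ := h2
  obtain ⟨l', hl'⟩ : ∃ l' : Fin (S.q i j0), l ≠ l' := by
    have h4 : 3 ≤ S.q i j0 := hS.three i j0
    by_cases h5 : l = ⟨0, by omega⟩
    · refine ⟨⟨1, by omega⟩, ?_⟩
      rw [h5]
      intro h6
      have := congrArg Fin.val h6
      simp at this
    · exact ⟨_, h5⟩
  have h5 := hS.indep j0 ⟨i, l⟩ ⟨i, l'⟩ (by simpa using hl')
  apply h12
  by_cases ha : S.a i j0 l = 0
  · have hb : S.b i j0 l ≠ 0 := by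
      intro hb
      apply h5
      simp [ha, hb]
    have h6 : ∀ z, y j0 z = 0 := by
      intro z
      have := hil z
      rw [ha, zero_mul, zero_add] at this
      exact (mul_eq_zero.1 this).resolve_left hb
    rw [h6, h6, mul_zero, mul_zero]
  · have h6 := hil z1
    have h7 := hil z2
    apply mul_left_cancel₀ ha
    linear_combination (y j0 z2) * h6 - (y j0 z1) * h7

/-- every point of the zero locus lies on a nonconstant entire curve when `r < n` -/
theorem curve_through (hS : S.Good) (hn : r < n) {x y : Fin n → ℂ} {w : Fin r → ℂ}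
    (h : S.Point (K := ℂ) x y w) (hw : ∀ i, w i = 0) :
    ∃ (X Y : Fin n → ℂ → ℂ) (W : Fin r → ℂ → ℂ), S.Entire X Y W ∧ ¬ ConstantMap X Y ∧
      (∀ j, X j 0 = x j) ∧ (∀ j, Y j 0 = y j) ∧ ∀ i, W i 0 = w i := by
  classical
  obtain ⟨σ, hσ, hz⟩ := S.zero_sigma hS h hw
  have h1 : ∃ j0, ∀ i, σ i ≠ j0 := by
    by_contra hcon
    push Not at hcon
    have := Fintype.card_le_of_surjective σ hcon
    simp at this
    omega
  obtain ⟨j0, hj0⟩ := h1
  let X : Fin n → ℂ → ℂ := fun j z => if j = j0 ∧ y j ≠ 0 then x j + z else x j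
  let Y : Fin n → ℂ → ℂ := fun j z => if j = j0 ∧ y j = 0 then z else y j
  have hX : ∀ j, j ≠ j0 → ∀ z, X j z = x j := fun j hj z => if_neg fun h => hj h.1
  have hY : ∀ j, j ≠ j0 → ∀ z, Y j z = y j := fun j hj z => if_neg fun h => hj h.1
  refine ⟨X, Y, fun _ _ => 0, ⟨fun j => ?_, fun j => ?_, fun i => differentiable_const 0,
    fun z => ⟨fun j => ?_, fun i => ?_⟩⟩, ?_, fun j => ?_, fun j => ?_, fun i => (hw i).symm⟩
  · by_cases hj : j = j0 ∧ y j ≠ 0
    · have : X j = fun z => x j + z := by
        funext z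
        exact if_pos hj
      rw [this]
      exact (differentiable_const _).add differentiable_id
    · have : X j = fun z => x j := by
        funext z
        exact if_neg hj
      rw [this]
      exact differentiable_const _
  · by_cases hj : j = j0 ∧ y j = 0
    · have : Y j = fun z => z := by
        funext z
        exact if_pos hj
      rw [this]
      exact differentiable_id
    · have : Y j = fun z => y j := by
        funext z
        exact if_neg hj
      rw [this]
      exact differentiable_const _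
  · by_cases hj : j = j0
    · by_cases hy : y j = 0
      · left
        have : X j z = x j := if_neg fun h => h.2 hy
        rw [this]
        exact (h.ne j).resolve_right (not_not.2 hy)
      · right
        have : Y j z = y j := if_neg fun h => hy h.2
        rw [this]
        exact hy
    · rw [hX j hj, hY j hj]
      exact h.ne j
  · rw [zero_pow (S.m_pos hS i).ne', eq_comm, rhs]
    obtain ⟨l, hl⟩ := hz i
    refine Finset.prod_eq_zero (Finset.mem_univ (σ i)) (Finset.prod_eq_zero (Finset.mem_univ l) ?_)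
    rw [hX _ (hj0 i), hY _ (hj0 i)]
    have h2 : hf (S.a i (σ i) l) (S.b i (σ i) l) (x (σ i)) (y (σ i)) = 0 := hl
    unfold hf at h2
    rw [h2]
    exact zero_pow (by have := hS.pos i (σ i) l; omega)
  · intro hc
    have h2 := hc j0 0 1
    by_cases hy : y j0 = 0
    · have e1 : ∀ z, X j0 z = x j0 := fun z => if_neg fun h => h.2 hy
      have e2 : ∀ z, Y j0 z = z := fun z => if_pos ⟨rfl, hy⟩
      rw [e1, e1, e2, e2, mul_one, mul_zero] at h2
      rcases h.ne j0 with h3 | h3
      · exact h3 h2
      · exact h3 hy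
    · have e1 : ∀ z, X j0 z = x j0 + z := fun z => if_pos ⟨rfl, hy⟩
      have e2 : ∀ z, Y j0 z = y j0 := fun z => if_neg fun h => hy h.2
      rw [e1, e1, e2, e2] at h2
      have h3 := mul_right_cancel₀ hy h2
      simp at h3
  · by_cases hj : j = j0 ∧ y j ≠ 0
    · have : X j 0 = x j + 0 := if_pos hj
      rw [this, add_zero]
    · exact if_neg hj
  · by_cases hj : j = j0 ∧ y j = 0
    · have : Y j 0 = 0 := if_pos hj
      rw [this, hj.2]
    · exact if_neg hj

variable {K : Type} [Field K] [Algebra ℂ K]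

/-- subvarieties outside of the zero locus are pseudo-Brody hyperbolic -/
theorem pseudoBrody (hS : S.Good) (x y : Fin n → K) (w : Fin r → K) {i : Fin r} (hi : w i ≠ 0) :
    S.PseudoBrody x y w := by
  refine ⟨MvPolynomial.X (Sum.inr i), S.deg i, ?_, ?_, fun X Y W h _ => ?_⟩
  · exact isWeightedHomogeneous_X ℂ S.weight (Sum.inr i)
  · simpa [val, pt] using hi
  · by_cases hc : ConstantMap X Y
    · exact Or.inl hc
    · right
      intro z
      simpa [val, pt] using S.entire hS h hc i z

/-- subvarieties of the zero locus are not pseudo-Brody hyperbolic when `n ≤ r + 1` -/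
theorem not_pseudoBrody (hS : S.Good) (hn : n ≤ r + 1) {d : ℕ} (hd : 1 ≤ d) {x y : Fin n → K}
    {w : Fin r → K} (V : S.Subvariety d x y w) (hw : ∀ i, w i = 0) : ¬ S.PseudoBrody x y w := by
  classical
  rintro ⟨G, dG, hG, hG0, H⟩
  have ht := S.nf_ne V.point
  have hN := S.nf_normal V.point
  have V' := Subvariety.scale S hS ht V
  have hval := fun (F : MvPolynomial ((Fin n ⊕ Fin n) ⊕ Fin r) ℂ) (c : Fin n → ℕ)
    (hF : S.IsForm F c) => S.val_scale (nf x y) x y w hF
  have hw' : (fun i => (∏ j, nf x y j ^ S.deg i j) * w i) = fun _ => (0 : K) := by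
    funext i
    rw [hw i, mul_zero]
  rw [hw'] at V'
  simp only [hw'] at hval
  set x' : Fin n → K := fun j => nf x y j * x j with hx'
  set y' : Fin n → K := fun j => nf x y j * y j with hy'
  obtain ⟨j0, hj0, hy0, -, -, hc⟩ := S.line hS hn hd hN V' (fun i => rfl)
  choose c c' hcx hcy using hc
  let PX : Fin n → Polynomial ℂ := fun j => if h : j = j0 then Polynomial.X else
    Polynomial.C (c j h)
  let PY : Fin n → Polynomial ℂ := fun j => if h : j = j0 then 1 else Polynomial.C (c' j h)
  have hPX0 : PX j0 = Polynomial.X := dif_pos rfl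
  have hPY0 : PY j0 = 1 := dif_pos rfl
  have hPX : ∀ j (h : j ≠ j0), PX j = Polynomial.C (c j h) := fun j h => dif_neg h
  have hPY : ∀ j (h : j ≠ j0), PY j = Polynomial.C (c' j h) := fun j h => dif_neg h
  let p : MvPolynomial ((Fin n ⊕ Fin n) ⊕ Fin r) ℂ → Polynomial ℂ :=
    fun F => aeval (pt PX PY fun _ => 0) F
  have hpK : ∀ F, Polynomial.aeval (x' j0) (p F) = val ℂ x' y' (fun _ => 0) F := by
    intro F
    have h1 : (Polynomial.aeval (x' j0)).comp (aeval (pt PX PY fun _ => 0)) =
        (aeval (pt x' y' fun _ => (0 : K)) : MvPolynomial ((Fin n ⊕ Fin n) ⊕ Fin r) ℂ →ₐ[ℂ] K) := by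
      apply MvPolynomial.algHom_ext
      intro v
      simp only [AlgHom.comp_apply, aeval_X]
      rcases v with (j | j) | i
      · simp only [pt, Sum.elim_inl]
        by_cases hj : j = j0
        · rw [hj, hPX0, Polynomial.aeval_X]
        · rw [hPX j hj, Polynomial.aeval_C, hcx j hj]
      · simp only [pt, Sum.elim_inl, Sum.elim_inr]
        by_cases hj : j = j0
        · rw [hj, hPY0, map_one, hy0]
        · rw [hPY j hj, Polynomial.aeval_C, hcy j hj]
      · simp [pt]
    exact congrArg (fun φ => φ F) h1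
  have hpz : ∀ F z, (p F).eval z =
      val ℂ (fun j => (PX j).eval z) (fun j => (PY j).eval z) (fun _ => (0 : ℂ)) F := by
    intro F z
    have h1 : (Polynomial.aeval z).comp (aeval (pt PX PY fun _ => 0)) =
        (aeval (pt (fun j => (PX j).eval z) (fun j => (PY j).eval z) fun _ => (0 : ℂ)) :
          MvPolynomial ((Fin n ⊕ Fin n) ⊕ Fin r) ℂ →ₐ[ℂ] ℂ) := by
      apply MvPolynomial.algHom_ext
      intro v
      simp only [AlgHom.comp_apply, aeval_X]
      rcases v with (j | j) | i
      · simp only [pt, Sum.elim_inl, Polynomial.coe_aeval_eq_eval]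
      · simp only [pt, Sum.elim_inl, Sum.elim_inr, Polynomial.coe_aeval_eq_eval]
      · simp [pt]
    have h2 := congrArg (fun φ => φ F) h1
    rw [← Polynomial.coe_aeval_eq_eval]
    exact h2
  have hE : S.Entire (fun j z => (PX j).eval z) (fun j z => (PY j).eval z) fun _ _ => 0 := by
    refine ⟨fun j => (PX j).differentiable, fun j => (PY j).differentiable,
      fun _ => differentiable_const 0, fun z => ⟨fun j => ?_, fun i => ?_⟩⟩
    · by_cases hj : j = j0
      · right
        rw [hj, hPY0]
        simp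
      · rw [hPX j hj, hPY j hj, Polynomial.eval_C, Polynomial.eval_C]
        refine (V'.point.ne j).imp (fun h h0 => h ?_) fun h h0 => h ?_
        · rw [hcx j hj, h0, map_zero]
        · rw [hcy j hj, h0, map_zero]
    · have h2 := V'.point.eq i
      rw [zero_pow (S.m_pos hS i).ne', eq_comm, rhs, Finset.prod_eq_zero_iff] at h2
      obtain ⟨j, -, h2⟩ := h2
      rw [Finset.prod_eq_zero_iff] at h2
      obtain ⟨l, -, h2⟩ := h2
      have h3 : hf (S.a i j l) (S.b i j l) (x' j) (y' j) = 0 :=
        (pow_eq_zero_iff (by have := hS.pos i j l; omega)).1 h2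
      have hj : j ≠ j0 := by
        rintro rfl
        obtain ⟨u, -, hu, -⟩ := S.const_of_zero hS (hN j) h3
        apply hj0
        rw [hu]
        exact isAlgebraic_algebraMap u
      rw [zero_pow (S.m_pos hS i).ne', eq_comm, rhs]
      refine Finset.prod_eq_zero (Finset.mem_univ j) (Finset.prod_eq_zero (Finset.mem_univ l) ?_)
      rw [hPX j hj, hPY j hj, Polynomial.eval_C, Polynomial.eval_C]
      have h4 : S.a i j l * c j hj + S.b i j l * c' j hj = 0 := by
        unfold hf at h3
        rw [hcx j hj, hcy j hj, ← map_mul, ← map_mul, ← map_add, map_eq_zero] at h3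
        exact h3
      have h5 : (algebraMap ℂ ℂ (S.a i j l) * c j hj + algebraMap ℂ ℂ (S.b i j l) * c' j hj) = 0 := h4
      rw [h5]
      exact zero_pow (by have := hS.pos i j l; omega)
  have hvan : ∀ F cF, S.IsForm F cF → val ℂ x y w F = 0 → ∀ z,
      val ℂ (fun j => (PX j).eval z) (fun j => (PY j).eval z) (fun _ => (0 : ℂ)) F = 0 := by
    intro F cF hF hF0 z
    have h1 := hval F cF hF
    rw [hF0, mul_zero, ← hpK] at h1
    have h2 : p F = 0 := by
      by_contra h3
      exact hj0 ⟨p F, h3, h1⟩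
    have h3 := hpz F z
    rw [h2, Polynomial.eval_zero] at h3
    exact h3.symm
  rcases H _ _ _ hE hvan with hc | hc
  · have h1 := hc j0 0 1
    simp only [hPX0, hPY0] at h1
    simp at h1
  · have h1 : p G = 0 := by
      apply Polynomial.funext
      intro z
      rw [hpz, Polynomial.eval_zero]
      exact hc z
    have h2 := hpK G
    rw [h1, map_zero, hval G dG hG] at h2
    rcases mul_eq_zero.1 h2.symm with h3 | h3
    · exact prod_ne ht dG h3
    · exact hG0 h3

end Sys

end Pool.Agent.P8H50.SG
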