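import Pool.Agent.P8H50.SG.Col

/-!
Systems over grids (helper50): pluricanonical forms, regular at all places.
-/

set_option autoImplicit false

open FF Pool.Agent.W603.LV Pool.Agent.W602.GT

namespace Pool.Agent.P8H50.SG

variable {k K : Type} [Field k] [Field K] [Algebra k K] {ι : Type} [Fintype ι]

/-- the product of the linear functions of `u j` -/
noncomputable def RR (q : ι → ℕ) (a b : ∀ j, Fin (q j) → k) (u : ι → K) (j : ι) : K :=
  ∏ l, lf (a j l) (b j l) (u j)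

/-- the determinant of the derivatives of the `u (S s)`, divided by the products `RR` -/
noncomputable def jd (q : ι → ℕ) (a b : ∀ j, Fin (q j) → k) (u : ι → K) {d : ℕ} (S : Fin d → ι)
    (D : Fin d → Derivation k K K) : K :=
  (Matrix.of fun i s => D i (u (S s)) / RR q a b u (S s)).det

variable {q : ι → ℕ} {a b : ∀ j, Fin (q j) → k} {u : ι → K} {d : ℕ}

omit [Fintype ι] in
theorem ge_jd [CharZero k] (hq : ∀ j, 2 ≤ q j)
    (hab : ∀ j l l', l ≠ l' → a j l * b j l' ≠ a j l' * b j l) (hu : ∀ j, u j ≠ 0)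
    (hL : ∀ j l, lf (a j l) (b j l) (u j) ≠ 0) (P : Place k K) (D : Fin d → Derivation k K K)
    (hD : ∀ i, DerReg P (D i)) (S : Fin d → ι) (j : ι) (hj : ∃ s, S s = j) (ε : ℤ)
    (hε : ε = -1 ∨ (ε = 0 ∧ ∀ j l, P.ord (lf (a j l) (b j l) (u j)) + nu P (u j) ≤ 0)) :
    Ge P (((q j : ℤ) - 2) * nu P (u j) + ε) (jd q a b u S D) := by
  classical
  choose v h hv0 hh0 hvh hord hunit using fun j => col (a j) (b j) (hab j) P (u j) (hu j) (hL j)
  have e1 : jd q a b u S D = (∏ s, h (S s)) *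
      (Matrix.of fun i s => D i (v (S s)) / v (S s)).det := by
    rw [← Matrix.det_mul_row]
    unfold jd
    congr 1
    ext i s
    simp only [Matrix.of_apply]
    exact hvh (S s) (D i)
  rw [e1]
  have hpos : ∀ j, 0 ≤ P.ord (h j) := fun j => le_trans (mul_nonneg (by
    have := hq j
    omega) (nu_nonneg P (u j))) (hord j)
  refine Ge.mul ?_ ?_
  · refine Or.inr ?_
    rw [ord_prod' P _ _ fun s _ => hh0 (S s)]
    obtain ⟨s0, hs0⟩ := hj
    refine le_trans (hord j) ?_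
    rw [← hs0]
    exact Finset.single_le_sum (f := fun s => P.ord (h (S s))) (fun s _ => hpos (S s))
      (Finset.mem_univ s0)
  · rcases hε with h1 | ⟨h1, h2⟩
    · rw [h1]
      exact det_log D hD _ fun s => hv0 (S s)
    · rw [h1]
      exact ge_lmat_reg (fun s => v (S s)) (fun s => hv0 (S s)) (fun s => hunit (S s) (h2 (S s)))
        D hD

theorem ord_z {e : ∀ j, Fin (q j) → ℕ} (he : ∀ j l, 1 ≤ e j l) {m : ℕ} (hm : 0 < m) {f : ι → ℕ}
    (hf : ∀ j, ∑ l, e j l = m * f j) (hL : ∀ j l, lf (a j l) (b j l) (u j) ≠ 0) {z κ : K}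
    (hκ0 : κ ≠ 0) (hz : z ^ m = κ * ∏ j, ∏ l, lf (a j l) (b j l) (u j) ^ e j l) (P : Place k K)
    (hκ : P.ord κ = 0) :
    0 ≤ P.ord z + ∑ j, (f j : ℤ) * nu P (u j) ∧
      ((∃ j l, 0 < P.ord (lf (a j l) (b j l) (u j)) + nu P (u j)) →
        1 ≤ P.ord z + ∑ j, (f j : ℤ) * nu P (u j)) := by
  classical
  have hprod : ∀ j, (∏ l, lf (a j l) (b j l) (u j) ^ e j l) ≠ 0 := fun j =>
    Finset.prod_ne_zero_iff.2 fun l _ => pow_ne_zero _ (hL j l)
  have h1 : (m : ℤ) * P.ord z = ∑ j, ∑ l, (e j l : ℤ) * P.ord (lf (a j l) (b j l) (u j)) := by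
    have h2 := congrArg P.ord hz
    rw [P.ord_pow, P.ord_mul hκ0 (Finset.prod_ne_zero_iff.2 fun j _ => hprod j), hκ, zero_add,
      ord_prod' P _ _ fun j _ => hprod j] at h2
    rw [h2]
    refine Finset.sum_congr rfl fun j _ => ?_
    rw [ord_prod' P _ _ fun l _ => pow_ne_zero _ (hL j l)]
    exact Finset.sum_congr rfl fun l _ => P.ord_pow _ _
  have h2 : (m : ℤ) * (P.ord z + ∑ j, (f j : ℤ) * nu P (u j)) =
      ∑ j, ∑ l, (e j l : ℤ) * (P.ord (lf (a j l) (b j l) (u j)) + nu P (u j)) := by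
    rw [mul_add, h1, Finset.mul_sum, ← Finset.sum_add_distrib]
    refine Finset.sum_congr rfl fun j _ => ?_
    have h3 : (∑ l, (e j l : ℤ)) = m * f j := by exact_mod_cast hf j
    simp only [mul_add, Finset.sum_add_distrib]
    rw [← Finset.sum_mul, h3]
    ring
  have hnn : ∀ j l, 0 ≤ (e j l : ℤ) * (P.ord (lf (a j l) (b j l) (u j)) + nu P (u j)) :=
    fun j l => mul_nonneg (Int.natCast_nonneg _) (ord_lf_nonneg P _ _ _ (hL j l))
  have hm' : (0 : ℤ) < m := by exact_mod_cast hm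
  constructor
  · by_contra hcon
    push Not at hcon
    have h3 : (m : ℤ) * (P.ord z + ∑ j, (f j : ℤ) * nu P (u j)) < 0 :=
      mul_neg_of_pos_of_neg hm' hcon
    rw [h2] at h3
    exact absurd (Finset.sum_nonneg fun j _ => Finset.sum_nonneg fun l _ => hnn j l) (not_le.2 h3)
  · rintro ⟨j0, l0, h0⟩
    have h4 : 0 < (m : ℤ) * (P.ord z + ∑ j, (f j : ℤ) * nu P (u j)) := by
      rw [h2]
      refine lt_of_lt_of_le ?_ (Finset.single_le_sum
        (f := fun j => ∑ l, (e j l : ℤ) * (P.ord (lf (a j l) (b j l) (u j)) + nu P (u j)))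
        (fun j _ => Finset.sum_nonneg fun l _ => hnn j l) (Finset.mem_univ j0))
      refine lt_of_lt_of_le ?_ (Finset.single_le_sum
        (f := fun l => (e j0 l : ℤ) * (P.ord (lf (a j0 l) (b j0 l) (u j0)) + nu P (u j0)))
        (fun l _ => hnn j0 l) (Finset.mem_univ l0))
      have : (1 : ℤ) ≤ e j0 l0 := by exact_mod_cast he j0 l0
      exact mul_pos (by omega) h0
    have h5 : 0 < P.ord z + ∑ j, (f j : ℤ) * nu P (u j) := pos_of_mul_pos_right h4 hm'.le
    omega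

/-- the estimate for a product of determinants; `-ε` is the loss at `P` if there are roots -/
theorem reg [CharZero k] (hq : ∀ j, 2 ≤ q j)
    (hab : ∀ j l l', l ≠ l' → a j l * b j l' ≠ a j l' * b j l) (hu : ∀ j, u j ≠ 0)
    (hL : ∀ j l, lf (a j l) (b j l) (u j) ≠ 0) {f : ι → ℕ} {z : K} {c : ι → ℕ} {M : ℕ} {μ : ℤ}
    (hM : ∑ j, (c j : ℤ) ≤ M * μ) (hc : ∀ j, (M : ℤ) * f j + 1 ≤ c j * ((q j : ℤ) - 2))
    (S : ι → Fin d → ι) (hS : ∀ j, ∃ s, S j s = j) (P : Place k K)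
    (hz1 : 0 ≤ P.ord z + ∑ j, (f j : ℤ) * nu P (u j))
    (hz2 : (∃ j l, 0 < P.ord (lf (a j l) (b j l) (u j)) + nu P (u j)) →
      μ ≤ P.ord z + ∑ j, (f j : ℤ) * nu P (u j)) {g : K}
    (hg : Ge P (-(∑ j, nu P (u j))) g) (D : Fin d → Derivation k K K)
    (hD : ∀ i, DerReg P (D i)) : Ge P 0 (g * z ^ M * ∏ j, jd q a b u (S j) D ^ c j) := by
  classical
  -- the loss
  obtain ⟨ε, hε, hε1⟩ : ∃ ε : ℤ,
      (ε = -1 ∨ (ε = 0 ∧ ∀ j l, P.ord (lf (a j l) (b j l) (u j)) + nu P (u j) ≤ 0)) ∧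
      -(μ * ε) ≤ P.ord z + ∑ j, (f j : ℤ) * nu P (u j) := by
    by_cases h : ∃ j l, 0 < P.ord (lf (a j l) (b j l) (u j)) + nu P (u j)
    · exact ⟨-1, Or.inl rfl, by simpa using hz2 h⟩
    · push Not at h
      exact ⟨0, Or.inr ⟨rfl, h⟩, by simpa using hz1⟩
  have hε0 : ε ≤ 0 := by
    rcases hε with h | ⟨h, -⟩ <;> omega
  have hpz : Ge P (M * P.ord z) (z ^ M) := Or.inr (by rw [P.ord_pow])
  have hprod : Ge P (∑ j, (c j : ℤ) * (((q j : ℤ) - 2) * nu P (u j) + ε))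
      (∏ j, jd q a b u (S j) D ^ c j) :=
    Ge.prod _ _ _ fun j _ => (ge_jd hq hab hu hL P D hD (S j) j (hS j) ε hε).pow (c j)
  refine ((hg.mul hpz).mul hprod).mono ?_
  have h1 : ∑ j, (c j : ℤ) * (((q j : ℤ) - 2) * nu P (u j) + ε) =
      ∑ j, ((c j : ℤ) * ((q j : ℤ) - 2)) * nu P (u j) + (∑ j, (c j : ℤ)) * ε := by
    rw [Finset.sum_mul, ← Finset.sum_add_distrib]
    exact Finset.sum_congr rfl fun j _ => by ring
  have h2 : ∑ j, ((M : ℤ) * f j + 1) * nu P (u j) ≤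
      ∑ j, ((c j : ℤ) * ((q j : ℤ) - 2)) * nu P (u j) :=
    Finset.sum_le_sum fun j _ => mul_le_mul_of_nonneg_right (hc j) (nu_nonneg P (u j))
  have h3 : ∑ j, ((M : ℤ) * f j + 1) * nu P (u j) =
      M * ∑ j, (f j : ℤ) * nu P (u j) + ∑ j, nu P (u j) := by
    rw [Finset.mul_sum, ← Finset.sum_add_distrib]
    exact Finset.sum_congr rfl fun j _ => by ring
  have h4 : (M * μ) * ε ≤ (∑ j, (c j : ℤ)) * ε := mul_le_mul_of_nonpos_right hM hε0
  have h5 : (M : ℤ) * (-(μ * ε)) ≤ M * (P.ord z + ∑ j, (f j : ℤ) * nu P (u j)) :=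
    mul_le_mul_of_nonneg_left hε1 (Int.natCast_nonneg _)
  rw [h1]
  have h6 : (M : ℤ) * (P.ord z + ∑ j, (f j : ℤ) * nu P (u j)) =
      M * P.ord z + M * ∑ j, (f j : ℤ) * nu P (u j) := by ring
  rw [h6] at h5
  have h7 : (M : ℤ) * (-(μ * ε)) = -(M * μ * ε) := by ring
  rw [h7] at h5
  rw [h3] at h2
  linarith

omit [Fintype ι] in
theorem jd_smul (S : Fin d → ι) (A : Matrix (Fin d) (Fin d) K) (D : Fin d → Derivation k K K) :
    jd q a b u S (fun i => ∑ j, A i j • D j) = A.det * jd q a b u S D := by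
  classical
  unfold jd
  rw [← Matrix.det_mul]
  congr 1
  ext i s
  rw [Matrix.mul_apply]
  simp only [Matrix.of_apply]
  have h0 : ∀ (t : Finset (Fin d)) (x : K), (∑ j ∈ t, A i j • D j) x = ∑ j ∈ t, A i j * D j x := by
    intro t x
    induction t using Finset.induction_on with
    | empty => simp
    | insert i s hi ih =>
      rw [Finset.sum_insert hi, Finset.sum_insert hi, Derivation.add_apply, ih]
      rfl
  rw [h0, Finset.sum_div]
  exact Finset.sum_congr rfl fun j _ => by ring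

omit [Fintype ι] in
theorem jd_ne [CharZero k] (hL : ∀ j l, lf (a j l) (b j l) (u j) ≠ 0) (S S0 : Fin d → ι)
    (hS : IsTranscendenceBasis k fun s => u (S s)) (D : Fin d → Derivation k K K)
    (hD : ∀ i s, D i (u (S0 s)) = if i = s then 1 else 0) : jd q a b u S D ≠ 0 := by
  classical
  intro h0
  obtain ⟨v, hv0, hv⟩ := Matrix.exists_vecMul_eq_zero_iff.2 h0
  have hR : ∀ j, RR q a b u j ≠ 0 := fun j => Finset.prod_ne_zero_iff.2 fun l _ => hL j l
  have happ : ∀ x : K, (∑ i, v i • D i) x = ∑ i, v i * D i x := by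
    intro x
    have h0 : ∀ (t : Finset (Fin d)), (∑ j ∈ t, v j • D j) x = ∑ j ∈ t, v j * D j x := by
      intro t
      induction t using Finset.induction_on with
      | empty => simp
      | insert i s hi ih =>
        rw [Finset.sum_insert hi, Finset.sum_insert hi, Derivation.add_apply, ih]
        rfl
    exact h0 _
  have h1 : (∑ i, v i • D i) = 0 := by
    refine der_ext (fun s => u (S s)) hS fun s => ?_
    rw [happ]
    have h2 := congrFun hv s
    simp only [Matrix.vecMul, dotProduct, Matrix.of_apply, Pi.zero_apply] at h2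
    have h3 : ∑ i, v i * (D i (u (S s)) / RR q a b u (S s)) =
        (∑ i, v i * D i (u (S s))) / RR q a b u (S s) := by
      rw [Finset.sum_div]
      exact Finset.sum_congr rfl fun i _ => by ring
    rw [h3, div_eq_zero_iff] at h2
    rw [h2.resolve_right (hR _)]
    rfl
  apply hv0
  funext s
  have h2 := happ (u (S0 s))
  rw [h1] at h2
  simp only [hD, mul_ite, mul_one, mul_zero] at h2
  rw [Finset.sum_ite_eq' Finset.univ s] at h2
  simp only [Finset.mem_univ, if_true] at h2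
  exact h2.symm

/-- **General type.** -/
theorem gt' [CharZero k] (hq : ∀ j, 2 ≤ q j)
    (hab : ∀ j l l', l ≠ l' → a j l * b j l' ≠ a j l' * b j l) (hu : ∀ j, u j ≠ 0)
    (hL : ∀ j l, lf (a j l) (b j l) (u j) ≠ 0) {f : ι → ℕ} {z : K}
    (hz0 : z ≠ 0) {c : ι → ℕ} {M : ℕ} {μ : ℤ}
    (hz1 : ∀ P : Place k K, Divisorial d P → 0 ≤ P.ord z + ∑ j, (f j : ℤ) * nu P (u j))
    (hz2 : ∀ P : Place k K, Divisorial d P →
      (∃ j l, 0 < P.ord (lf (a j l) (b j l) (u j)) + nu P (u j)) →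
      μ ≤ P.ord z + ∑ j, (f j : ℤ) * nu P (u j))
    (hM : ∑ j, (c j : ℤ) ≤ M * μ) (hc : ∀ j, (M : ℤ) * f j + 1 ≤ c j * ((q j : ℤ) - 2))
    (S : ι → Fin d → ι) (hS : ∀ j, ∃ s, S j s = j)
    (j0 : ι) (hb : ∀ j, IsTranscendenceBasis k fun s => u (S j s))
    (htr : Algebra.trdeg k K = d) : GeneralType k K d := by
  classical
  set g : Fin (d + 1) → K := Fin.cons 1 fun s => u (S j0 s) with hg
  refine ⟨htr, ∑ j, c j, ?_, fun t D => g t * z ^ M * ∏ j, jd q a b u (S j) D ^ c j,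
    fun t A D => ?_, fun P hP t D hD => ?_, ?_⟩
  · have h1 : 0 < c j0 := by
      by_contra h
      have h2 : c j0 = 0 := by omega
      have h3 := hc j0
      rw [h2] at h3
      have h4 : (0 : ℤ) ≤ (M : ℤ) * f j0 := by positivity
      simp only [Nat.cast_zero, zero_mul] at h3
      omega
    exact lt_of_lt_of_le h1 (Finset.single_le_sum (f := c) (fun j _ => Nat.zero_le _)
      (Finset.mem_univ j0))
  · simp only [jd_smul, mul_pow, Finset.prod_mul_distrib, Finset.prod_pow_eq_pow_sum]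
    ring
  · rw [reg_iff_ge]
    refine reg hq hab hu hL hM hc S hS P (hz1 P hP) (hz2 P hP) ?_ D hD
    refine Fin.cases ?_ (fun s => ?_) t
    · simp only [hg, Fin.cons_zero]
      refine Ge.one.mono ?_
      have := Finset.sum_nonneg fun j (_ : j ∈ Finset.univ) => nu_nonneg P (u j)
      omega
    · simp only [hg, Fin.cons_succ]
      refine (ge_u P (u (S j0 s))).mono ?_
      have := Finset.single_le_sum (f := fun j => nu P (u j)) (fun j _ => nu_nonneg P (u j))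
        (Finset.mem_univ (S j0 s))
      simpa using this
  · choose D hD using fun i : Fin d => exists_der (fun s => u (S j0 s)) (hb j0)
      (fun s => if i = s then (1 : K) else 0)
    have hne : (z ^ M * ∏ j, jd q a b u (S j) D ^ c j) ≠ 0 :=
      mul_ne_zero (pow_ne_zero _ hz0) (Finset.prod_ne_zero_iff.2 fun j _ =>
        pow_ne_zero _ (jd_ne hL (S j) (S j0) (hb j) D hD))
    refine ⟨D, ?_, ?_⟩
    · simp only [hg, Fin.cons_zero, one_mul]
      exact hne
    · have h1 : (fun s : Fin d => g s.succ * z ^ M * (∏ j, jd q a b u (S j) D ^ c j) /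
          (g 0 * z ^ M * ∏ j, jd q a b u (S j) D ^ c j)) = fun s => u (S j0 s) := by
        funext s
        simp only [hg, Fin.cons_zero, Fin.cons_succ, one_mul]
        rw [mul_assoc, mul_div_cancel_right₀ _ hne]
      rw [h1]
      exact (hb j0).1

/-- **General type** of the covers. -/
theorem gt [CharZero k] (hq : ∀ j, 2 ≤ q j)
    (hab : ∀ j l l', l ≠ l' → a j l * b j l' ≠ a j l' * b j l) (hu : ∀ j, u j ≠ 0)
    (hL : ∀ j l, lf (a j l) (b j l) (u j) ≠ 0) {e : ∀ j, Fin (q j) → ℕ} (he : ∀ j l, 1 ≤ e j l)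
    {m : ℕ} (hm : 0 < m) {f : ι → ℕ} (hf : ∀ j, ∑ l, e j l = m * f j) {z κ : K} (hκ0 : κ ≠ 0)
    (hz0 : z ≠ 0) (hz : z ^ m = κ * ∏ j, ∏ l, lf (a j l) (b j l) (u j) ^ e j l) {c : ι → ℕ} {M : ℕ}
    (hM : ∑ j, c j ≤ M) (hc : ∀ j, (M : ℤ) * f j + 1 ≤ c j * ((q j : ℤ) - 2))
    (S : ι → Fin d → ι) (hS : ∀ j, ∃ s, S j s = j) (hκ : ∀ P : Place k K, P.ord κ = 0)
    (j0 : ι) (hb : ∀ j, IsTranscendenceBasis k fun s => u (S j s))
    (htr : Algebra.trdeg k K = d) : GeneralType k K d :=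
  gt' (μ := 1) hq hab hu hL hz0 (fun P _ => (ord_z he hm hf hL hκ0 hz P (hκ P)).1)
    (fun P _ => (ord_z he hm hf hL hκ0 hz P (hκ P)).2) (by rw [mul_one]; exact_mod_cast hM) hc S hS
    j0 hb htr

/-- the total order at `P` of the product of the powers of the linear functions -/
noncomputable def tot (e : ∀ j, Fin (q j) → ℕ) (a b : ∀ j, Fin (q j) → k) (u : ι → K)
    (P : Place k K) : ℤ :=
  ∑ j, ∑ l, (e j l : ℤ) * (P.ord (lf (a j l) (b j l) (u j)) + nu P (u j))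

theorem tot_eq {e : ∀ j, Fin (q j) → ℕ} (hL : ∀ j l, lf (a j l) (b j l) (u j) ≠ 0)
    (P : Place k K) : P.ord (∏ j, ∏ l, lf (a j l) (b j l) (u j) ^ e j l) +
      ∑ j, ((∑ l, e j l : ℕ) : ℤ) * nu P (u j) = tot e a b u P := by
  unfold tot
  rw [ord_prod' P _ _ fun j _ => Finset.prod_ne_zero_iff.2 fun l _ => pow_ne_zero _ (hL j l),
    ← Finset.sum_add_distrib]
  refine Finset.sum_congr rfl fun j _ => ?_
  rw [ord_prod' P _ _ fun l _ => pow_ne_zero _ (hL j l)]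
  push_cast
  rw [Finset.sum_mul, ← Finset.sum_add_distrib]
  refine Finset.sum_congr rfl fun l _ => ?_
  rw [P.ord_pow]
  ring

theorem tot_nonneg {e : ∀ j, Fin (q j) → ℕ} (hL : ∀ j l, lf (a j l) (b j l) (u j) ≠ 0)
    (P : Place k K) : 0 ≤ tot e a b u P :=
  Finset.sum_nonneg fun j _ => Finset.sum_nonneg fun l _ =>
    mul_nonneg (Int.natCast_nonneg _) (ord_lf_nonneg P _ _ _ (hL j l))

theorem tot_pos {e : ∀ j, Fin (q j) → ℕ} (he : ∀ j l, 1 ≤ e j l)
    (hL : ∀ j l, lf (a j l) (b j l) (u j) ≠ 0) (P : Place k K)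
    (h : ∃ j l, 0 < P.ord (lf (a j l) (b j l) (u j)) + nu P (u j)) : 0 < tot e a b u P := by
  obtain ⟨j0, l0, h0⟩ := h
  have hnn : ∀ j l, 0 ≤ (e j l : ℤ) * (P.ord (lf (a j l) (b j l) (u j)) + nu P (u j)) :=
    fun j l => mul_nonneg (Int.natCast_nonneg _) (ord_lf_nonneg P _ _ _ (hL j l))
  refine lt_of_lt_of_le ?_ (Finset.single_le_sum
    (f := fun j => ∑ l, (e j l : ℤ) * (P.ord (lf (a j l) (b j l) (u j)) + nu P (u j)))
    (fun j _ => Finset.sum_nonneg fun l _ => hnn j l) (Finset.mem_univ j0))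
  refine lt_of_lt_of_le ?_ (Finset.single_le_sum
    (f := fun l => (e j0 l : ℤ) * (P.ord (lf (a j0 l) (b j0 l) (u j0)) + nu P (u j0)))
    (fun l _ => hnn j0 l) (Finset.mem_univ l0))
  have : (1 : ℤ) ≤ e j0 l0 := by exact_mod_cast he j0 l0
  exact mul_pos (by omega) h0

/-- **General type** from mean multiplicities. -/
theorem gt_mean [CharZero k] (hq : ∀ j, 2 ≤ q j)
    (hab : ∀ j l l', l ≠ l' → a j l * b j l' ≠ a j l' * b j l) (hu : ∀ j, u j ≠ 0)
    (hL : ∀ j l, lf (a j l) (b j l) (u j) ≠ 0) {e : ∀ j, Fin (q j) → ℕ} (he : ∀ j l, 1 ≤ e j l)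
    {m : ℕ} (hmul : ∀ P : Place k K, Divisorial d P → tot e a b u P = 0 ∨ (m : ℤ) ≤ tot e a b u P)
    {c : ι → ℕ} {M : ℕ} (hM : ∑ j, c j ≤ M * m)
    (hc : ∀ j, (M : ℤ) * (∑ l, e j l : ℕ) + 1 ≤ c j * ((q j : ℤ) - 2))
    (S : ι → Fin d → ι) (hS : ∀ j, ∃ s, S j s = j)
    (j0 : ι) (hb : ∀ j, IsTranscendenceBasis k fun s => u (S j s))
    (htr : Algebra.trdeg k K = d) : GeneralType k K d := by
  refine gt' (μ := m) (z := ∏ j, ∏ l, lf (a j l) (b j l) (u j) ^ e j l) (f := fun j => ∑ l, e j l)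
    hq hab hu hL (Finset.prod_ne_zero_iff.2 fun j _ => Finset.prod_ne_zero_iff.2 fun l _ =>
      pow_ne_zero _ (hL j l)) (fun P _ => ?_) (fun P hP h => ?_) (by exact_mod_cast hM) hc S hS
    j0 hb htr
  · rw [tot_eq hL]
    exact tot_nonneg hL P
  · rw [tot_eq hL]
    rcases hmul P hP with h1 | h1
    · have := tot_pos he hL P h
      omega
    · exact h1

end Pool.Agent.P8H50.SG
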