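import Pool.Agent.P8H50.SG.Form

/-!
Systems over grids (helper50): general type from one equation.
-/

set_option autoImplicit false

open FF Pool.Agent.W603.LV Pool.Agent.W602.GT

namespace Pool.Agent.P8H50.SG

/-- the weights -/
theorem weights {n : ℕ} (q f : Fin n → ℕ) (hq : ∀ j, 3 ≤ q j)
    (hs : ∑ j, (f j : ℝ) / ((q j : ℝ) - 2) < 1) :
    ∃ (M : ℕ) (c : Fin n → ℕ), ∑ j, c j ≤ M ∧
      ∀ j, (M : ℤ) * f j + 1 ≤ c j * ((q j : ℤ) - 2) := by
  set s := ∑ j, (f j : ℝ) / ((q j : ℝ) - 2) with hsd
  obtain ⟨M, hM⟩ := exists_nat_gt ((n : ℝ) / (1 - s))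
  have h1 : (n : ℝ) < M * (1 - s) := by rwa [div_lt_iff₀ (by linarith)] at hM
  refine ⟨M, fun j => M * f j / (q j - 2) + 1, ?_, fun j => ?_⟩
  · have h2 : ((∑ j, (M * f j / (q j - 2) + 1) : ℕ) : ℝ) ≤ M * s + n := by
      push_cast
      rw [Finset.sum_add_distrib, hsd, Finset.mul_sum]
      simp only [Finset.sum_const, Finset.card_univ, Fintype.card_fin, nsmul_eq_mul, mul_one]
      refine add_le_add_left (Finset.sum_le_sum fun j _ => ?_) _
      refine Nat.cast_div_le.trans (le_of_eq ?_)
      rw [Nat.cast_sub (by have := hq j; omega)]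
      push_cast
      ring
    have h3 : ((∑ j, (M * f j / (q j - 2) + 1) : ℕ) : ℝ) ≤ M := by nlinarith
    exact_mod_cast h3
  · have h2 : 0 < q j - 2 := by have := hq j; omega
    have h3 : M * f j < (q j - 2) * (M * f j / (q j - 2) + 1) := Nat.lt_mul_div_succ _ h2
    have h4 : ((q j - 2 : ℕ) : ℤ) = (q j : ℤ) - 2 := by
      rw [Nat.cast_sub (by have := hq j; omega)]
      push_cast
      ring
    rw [← h4]
    have h5 : ((M * f j : ℕ) : ℤ) < (((q j - 2) * (M * f j / (q j - 2) + 1) : ℕ) : ℤ) := by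
      exact_mod_cast h3
    push_cast at h5 ⊢
    linarith

variable {k K : Type} [Field k] [Field K] [Algebra k K]

/-- transcendence bases through given members -/
theorem bases [CharZero k] {ι : Type} (u : ι → K) (hu : ∀ j, Transcendental k (u j)) {d : ℕ}
    (htr : Algebra.trdeg k K = d)
    (halg : Algebra.IsAlgebraic (IntermediateField.adjoin k (Set.range u)) K) (j : ι) :
    ∃ S : Fin d → ι, (∃ s, S s = j) ∧ IsTranscendenceBasis k fun s => u (S s) := by
  classical
  have h1 : AlgebraicIndepOn k id ({u j} : Set K) := by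
    unfold AlgebraicIndepOn
    rw [algebraicIndependent_unique_type_iff]
    have : ((default : ({u j} : Set K)) : K) = u j := (default : ({u j} : Set K)).2
    simpa [this] using hu j
  have := alg_adjoin halg
  obtain ⟨B, hB1, hB2, hB⟩ := exists_isTranscendenceBasis_between (R := k) (A := K) {u j}
    (Set.range u) (by rintro _ rfl; exact ⟨j, rfl⟩) h1
  have hcard : Cardinal.mk B = (d : Cardinal) := by
    rw [← htr]
    exact hB.cardinalMk_eq_trdeg
  have hfin : Finite B := by
    rw [← Cardinal.lt_aleph0_iff_finite, hcard]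
    exact Cardinal.natCast_lt_aleph0
  have : Fintype B := Fintype.ofFinite B
  have hcd : Fintype.card B = d := by
    rw [Cardinal.mk_fintype] at hcard
    exact_mod_cast hcard
  let φ : Fin d ≃ B := (Fintype.equivFinOfCardEq hcd).symm
  have hch : ∀ v : B, ∃ i, u i = v ∧ ((v : K) = u j → i = j) := by
    intro v
    by_cases h : (v : K) = u j
    · exact ⟨j, h.symm, fun _ => rfl⟩
    · obtain ⟨i, hi⟩ := hB2 v.2
      exact ⟨i, hi, fun h2 => absurd h2 h⟩
  choose c hc1 hc2 using hch
  refine ⟨fun s => c (φ s), ⟨φ.symm ⟨u j, hB1 rfl⟩, ?_⟩, ?_⟩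
  · exact hc2 _ (by simp)
  · have h2 : (fun s => u (c (φ s))) = (Subtype.val : B → K) ∘ φ := by
      funext s
      exact hc1 _
    rw [h2]
    exact hB.comp_equiv φ

/-- a normalised point of the product of `n` projective lines -/
def Normal {n : ℕ} (x y : Fin n → K) : Prop := ∀ j, y j = 1 ∨ (x j = 1 ∧ y j = 0)

/-- the linear form `a X + b Y` -/
def hf (a b : k) (x y : K) : K := algebraMap k K a * x + algebraMap k K b * y

theorem hf_one (a b : k) (x : K) : hf a b x 1 = lf a b x := by simp [hf, lf]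

theorem alg_le {L L' : IntermediateField k K} (h : L ≤ L') (hL : Algebra.IsAlgebraic L K) :
    Algebra.IsAlgebraic L' K := by
  let _ : Algebra L L' := (IntermediateField.inclusion h).toRingHom.toAlgebra
  have : IsScalarTower L L' K := IsScalarTower.of_algebraMap_eq fun x => rfl
  exact Algebra.IsAlgebraic.extendScalars (R := L) (IntermediateField.inclusion h).toRingHom.injective

open scoped Classical in
/-- the constant coordinates -/
theorem split [IsAlgClosed k] {n : ℕ} {q : Fin n → ℕ} {a b : ∀ j, Fin (q j) → k}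
    {e : ∀ j, Fin (q j) → ℕ} {m : ℕ} (hm : 0 < m) {x y : Fin n → K} (hxy : Normal x y) {z : K}
    (hz0 : z ≠ 0) (he : ∀ j l, 1 ≤ e j l)
    (hz : z ^ m = ∏ j, ∏ l, hf (a j l) (b j l) (x j) (y j) ^ e j l) :
    (∀ j : {j // Transcendental k (x j)}, y j.1 = 1) ∧
    (∀ j : {j // Transcendental k (x j)}, ∀ l, lf (a j.1 l) (b j.1 l) (x j.1) ≠ 0) ∧
    ∃ κ : k, κ ≠ 0 ∧ z ^ m = algebraMap k K κ *
      ∏ j : {j // Transcendental k (x j)}, ∏ l, lf (a j.1 l) (b j.1 l) (x j.1) ^ e j.1 l := by
  classical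
  have hy : ∀ j : {j // Transcendental k (x j)}, y j.1 = 1 := by
    rintro ⟨j, hj⟩
    rcases hxy j with h | ⟨h, -⟩
    · exact h
    · exfalso
      apply hj
      rw [h]
      exact isAlgebraic_one
  have hne : ∀ j l, hf (a j l) (b j l) (x j) (y j) ≠ 0 := by
    intro j l h0
    have h1 : z ^ m = 0 := by
      rw [hz]
      refine Finset.prod_eq_zero (Finset.mem_univ j) (Finset.prod_eq_zero (Finset.mem_univ l) ?_)
      rw [h0, zero_pow (by have := he j l; omega)]
    exact hz0 (pow_eq_zero_iff hm.ne' |>.1 h1)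
  refine ⟨hy, fun j l => ?_, ?_⟩
  · have := hne j.1 l
    rwa [hy j, hf_one] at this
  · have hconst : ∀ j : {j // ¬ Transcendental k (x j)},
        ∃ c : k, ∏ l, hf (a j.1 l) (b j.1 l) (x j.1) (y j.1) ^ e j.1 l = algebraMap k K c := by
      rintro ⟨j, hj⟩
      have h1 : IsAlgebraic k (x j) := by
        by_contra h
        exact hj h
      obtain ⟨c, hc⟩ := const_of_algebraic h1
      obtain ⟨c', hc'⟩ : ∃ c' : k, y j = algebraMap k K c' := by
        rcases hxy j with h | ⟨-, h⟩
        · exact ⟨1, by rw [h, map_one]⟩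
        · exact ⟨0, by rw [h, map_zero]⟩
      refine ⟨∏ l, (a j l * c + b j l * c') ^ e j l, ?_⟩
      simp only [map_prod, map_pow, map_add, map_mul]
      refine Finset.prod_congr rfl fun l _ => ?_
      unfold hf
      rw [hc, hc']
    choose c hc using hconst
    have h2 : z ^ m = algebraMap k K (∏ j, c j) *
        ∏ j : {j // Transcendental k (x j)}, ∏ l, lf (a j.1 l) (b j.1 l) (x j.1) ^ e j.1 l := by
      rw [hz, ← Fintype.prod_subtype_mul_prod_subtype (fun j => Transcendental k (x j)), mul_comm,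
        map_prod]
      congr 1
      · exact Finset.prod_congr rfl fun j _ => hc j
      · refine Finset.prod_congr rfl fun j _ => Finset.prod_congr rfl fun l _ => ?_
        rw [hy j, hf_one]
    refine ⟨_, ?_, h2⟩
    intro h0
    rw [h0, map_zero, zero_mul] at h2
    exact hz0 (pow_eq_zero_iff hm.ne' |>.1 h2)

/-- **General type from one equation.** -/
theorem general [IsAlgClosed k] [CharZero k] {n : ℕ} {q : Fin n → ℕ} (hq : ∀ j, 3 ≤ q j)
    {a b : ∀ j, Fin (q j) → k} (hab : ∀ j l l', l ≠ l' → a j l * b j l' ≠ a j l' * b j l)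
    {e : ∀ j, Fin (q j) → ℕ} (he : ∀ j l, 1 ≤ e j l) {m : ℕ} {f : Fin n → ℕ}
    (hf' : ∀ j, ∑ l, e j l = m * f j) (hm : 0 < m)
    (hs : ∑ j, (f j : ℝ) / ((q j : ℝ) - 2) < 1) {x y : Fin n → K} (hxy : Normal x y) {z : K}
    (hz0 : z ≠ 0) (hz : z ^ m = ∏ j, ∏ l, hf (a j l) (b j l) (x j) (y j) ^ e j l)
    (halg : Algebra.IsAlgebraic (IntermediateField.adjoin k (Set.range x)) K) {d : ℕ}
    (hd : 1 ≤ d) (htr : Algebra.trdeg k K = d) : GeneralType k K d := by
  classical
  obtain ⟨M, c, hM, hc⟩ := weights q f hq hs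
  obtain ⟨-, hL, κ, hκ, hz'⟩ := split hm hxy hz0 he hz
  set J := {j // Transcendental k (x j)} with hJ
  have halg' : Algebra.IsAlgebraic (IntermediateField.adjoin k (Set.range fun j : J => x j.1)) K := by
    refine alg_le (L := IntermediateField.adjoin k (Set.range x)) ?_ halg
    rw [IntermediateField.adjoin_le_iff]
    rintro _ ⟨j, rfl⟩
    by_cases h : Transcendental k (x j)
    · exact IntermediateField.subset_adjoin k _ ⟨⟨j, h⟩, rfl⟩
    · have h1 : IsAlgebraic k (x j) := by
        by_contra h2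
        exact h h2
      obtain ⟨c, hc⟩ := const_of_algebraic h1
      rw [hc]
      exact (IntermediateField.adjoin k _).algebraMap_mem c
  have hne : Nonempty J := by
    by_contra h
    rw [not_nonempty_iff] at h
    have h2 := alg_adjoin halg'
    obtain ⟨t, ht, hb⟩ := exists_isTranscendenceBasis_subset (R := k) (A := K)
      (Set.range fun j : J => x j.1)
    have h3 : t = ∅ := by
      rw [Set.range_eq_empty] at ht
      exact Set.subset_empty_iff.1 ht
    subst h3
    have h4 := hb.cardinalMk_eq_trdeg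
    rw [htr, Cardinal.mk_emptyCollection] at h4
    have h5 : (0 : ℕ) = d := by exact_mod_cast h4
    omega
  obtain ⟨j0⟩ := hne
  choose S hS hb using fun j : J => bases (fun j : J => x j.1) (fun j => j.2) htr halg' j
  exact gt (q := fun j : J => q j.1) (a := fun j => a j.1) (b := fun j => b j.1)
    (u := fun j => x j.1) (e := fun j => e j.1) (f := fun j => f j.1) (c := fun j => c j.1)
    (M := M) (κ := algebraMap k K κ)
    (fun j => by have := hq j.1; omega) (fun j => hab j.1) (fun j h => j.2 (by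
      rw [h]; exact isAlgebraic_zero)) hL (fun j => he j.1) hm (fun j => hf' j.1)
    ((_root_.map_ne_zero _).2 hκ) hz0 hz'
    (le_trans (by
      rw [← Fintype.sum_subtype_add_sum_subtype (fun j => Transcendental k (x j)) c]
      exact Nat.le_add_right _ _) hM) (fun j => hc j.1) S hS (fun P => P.ord_const hκ) j0 hb htr

end Pool.Agent.P8H50.SG
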