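import Pool.Agent.P8H50.SG.Gen
import Pool.Agent.P8H50.SG.Defs

/-!
Systems over grids (helper50): normalisation of homogeneous coordinates.
-/

set_option autoImplicit false

open FF Pool.Agent.W603.LV Pool.Agent.W602.GT MvPolynomial

namespace Pool.Agent.P8H50.SG

namespace Sys

variable {k : Type} [Field k] {n r : ℕ} (S : Sys k n r) {K : Type} [Field K] [Algebra k K]

/-- the factors of the coordinates under a scaling -/
theorem pt_scale (t : Fin n → K) (x y : Fin n → K) (w : Fin r → K) (v : (Fin n ⊕ Fin n) ⊕ Fin r) :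
    pt (fun j => t j * x j) (fun j => t j * y j) (fun i => (∏ j, t j ^ S.deg i j) * w i) v =
      (∏ j, t j ^ S.weight v j) * pt x y w v := by
  classical
  rcases v with (j | j) | i
  · simp only [pt, Sum.elim_inl, weight]
    congr 1
    rw [Finset.prod_eq_single j]
    · simp
    · intro b _ hb
      simp [Pi.single_apply, hb]
    · simp
  · simp only [pt, Sum.elim_inl, Sum.elim_inr, weight]
    congr 1
    rw [Finset.prod_eq_single j]
    · simp
    · intro b _ hb
      simp [Pi.single_apply, hb]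
    · simp
  · simp only [pt, Sum.elim_inr, weight]

/-- the values of forms under a scaling -/
theorem val_scale (t : Fin n → K) (x y : Fin n → K) (w : Fin r → K)
    {G : MvPolynomial ((Fin n ⊕ Fin n) ⊕ Fin r) k} {d : Fin n → ℕ} (hG : S.IsForm G d) :
    val k (fun j => t j * x j) (fun j => t j * y j) (fun i => (∏ j, t j ^ S.deg i j) * w i) G =
      (∏ j, t j ^ d j) * val k x y w G := by
  classical
  unfold val
  rw [aeval_def, aeval_def, eval₂_eq', eval₂_eq', Finset.mul_sum]
  refine Finset.sum_congr rfl fun D hD => ?_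
  have h1 : Finsupp.weight S.weight D = d := hG (mem_support_iff.1 hD)
  have h2 : ∀ j, ∑ v, S.weight v j * D v = d j := by
    intro j
    rw [← h1, Finsupp.weight_apply, Finsupp.sum_fintype _ _ (by simp), Finset.sum_apply]
    refine Finset.sum_congr rfl fun v _ => ?_
    simp [mul_comm]
  have h3 : ∏ v, pt (fun j => t j * x j) (fun j => t j * y j)
      (fun i => (∏ j, t j ^ S.deg i j) * w i) v ^ D v = (∏ j, t j ^ d j) *
      ∏ v, pt x y w v ^ D v := by
    have h4 : ∏ j, t j ^ d j = ∏ v, (∏ j, t j ^ S.weight v j) ^ D v := by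
      simp only [← Finset.prod_pow, ← pow_mul]
      rw [Finset.prod_comm]
      refine Finset.prod_congr rfl fun j _ => ?_
      rw [Finset.prod_pow_eq_pow_sum, h2]
    rw [h4, ← Finset.prod_mul_distrib]
    refine Finset.prod_congr rfl fun v _ => ?_
    rw [pt_scale, mul_pow]
  rw [h3]
  ring

theorem m_pos (hS : S.Good) (i : Fin r) : 0 < S.m i := by
  have h := hS.small i
  have h2 : 0 ≤ ∑ j, (∑ l, (S.e i j l : ℝ)) / ((S.q i j : ℝ) - 2) := by
    refine Finset.sum_nonneg fun j _ => div_nonneg (Finset.sum_nonneg fun _ _ => Nat.cast_nonneg _) ?_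
    have : (3 : ℝ) ≤ S.q i j := by exact_mod_cast hS.three i j
    linarith
  exact_mod_cast h2.trans_lt h

theorem sum_e (hS : S.Good) (i : Fin r) (j : Fin n) : ∑ l, S.e i j l = S.m i * S.deg i j :=
  (Nat.mul_div_cancel' (hS.dvd i j)).symm

theorem rhs_scale (hS : S.Good) (t : Fin n → K) (x y : Fin n → K) (i : Fin r) :
    S.rhs i (fun j => t j * x j) (fun j => t j * y j) =
      (∏ j, t j ^ S.deg i j) ^ S.m i * S.rhs i x y := by
  unfold rhs
  rw [← Finset.prod_pow, ← Finset.prod_mul_distrib]
  refine Finset.prod_congr rfl fun j _ => ?_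
  rw [← pow_mul, mul_comm (S.deg i j), ← S.sum_e hS, ← Finset.prod_pow_eq_pow_sum,
    ← Finset.prod_mul_distrib]
  refine Finset.prod_congr rfl fun l _ => ?_
  rw [← mul_pow]
  congr 1
  ring

theorem Point.scale (hS : S.Good) {t : Fin n → K} (ht : ∀ j, t j ≠ 0) {x y : Fin n → K}
    {w : Fin r → K} (h : S.Point x y w) :
    S.Point (fun j => t j * x j) (fun j => t j * y j) fun i => (∏ j, t j ^ S.deg i j) * w i where
  ne j := (h.ne j).imp (mul_ne_zero (ht j)) (mul_ne_zero (ht j))
  eq i := by rw [mul_pow, h.eq, S.rhs_scale hS]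

theorem prod_ne {t : Fin n → K} (ht : ∀ j, t j ≠ 0) (f : Fin n → ℕ) : ∏ j, t j ^ f j ≠ 0 :=
  Finset.prod_ne_zero_iff.2 fun j _ => pow_ne_zero _ (ht j)

theorem ratios_scale {t : Fin n → K} (ht : ∀ j, t j ≠ 0) (x y : Fin n → K) (w : Fin r → K) :
    S.ratios (fun j => t j * x j) (fun j => t j * y j) (fun i => (∏ j, t j ^ S.deg i j) * w i) =
      S.ratios x y w := by
  ext g
  constructor
  · rintro ⟨G, H, d, hG, hH, h0, rfl⟩
    rw [S.val_scale t x y w hH] at h0
    refine ⟨G, H, d, hG, hH, (mul_ne_zero_iff.1 h0).2, ?_⟩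
    rw [S.val_scale t x y w hH, S.val_scale t x y w hG, mul_div_mul_left _ _ (prod_ne ht d)]
  · rintro ⟨G, H, d, hG, hH, h0, rfl⟩
    refine ⟨G, H, d, hG, hH, ?_, ?_⟩
    · rw [S.val_scale t x y w hH]
      exact mul_ne_zero (prod_ne ht d) h0
    · rw [S.val_scale t x y w hH, S.val_scale t x y w hG, mul_div_mul_left _ _ (prod_ne ht d)]

theorem Subvariety.scale (hS : S.Good) {t : Fin n → K} (ht : ∀ j, t j ≠ 0) {x y : Fin n → K}
    {w : Fin r → K} {d : ℕ} (h : S.Subvariety d x y w) :
    S.Subvariety d (fun j => t j * x j) (fun j => t j * y j)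
      fun i => (∏ j, t j ^ S.deg i j) * w i where
  point := Point.scale S hS ht h.point
  gen := by rw [S.ratios_scale ht, h.gen]
  dim := h.dim

open scoped Classical in
/-- the normalising factors -/
noncomputable def nf (x y : Fin n → K) (j : Fin n) : K := if y j = 0 then (x j)⁻¹ else (y j)⁻¹

theorem nf_ne {x y : Fin n → K} {w : Fin r → K} (h : S.Point x y w) (j : Fin n) :
    nf x y j ≠ 0 := by
  unfold nf
  split_ifs with h0
  · exact inv_ne_zero ((h.ne j).resolve_right (not_not.2 h0))
  · exact inv_ne_zero h0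

theorem nf_normal {x y : Fin n → K} {w : Fin r → K} (h : S.Point x y w) :
    Normal (fun j => nf x y j * x j) (fun j => nf x y j * y j) := by
  intro j
  unfold nf
  dsimp only
  split_ifs with h0
  · right
    exact ⟨inv_mul_cancel₀ ((h.ne j).resolve_right (not_not.2 h0)), by rw [h0, mul_zero]⟩
  · left
    exact inv_mul_cancel₀ h0

theorem val_mem {L : IntermediateField k K} {x y : Fin n → K} {w : Fin r → K}
    (hx : ∀ j, x j ∈ L) (hy : ∀ j, y j ∈ L) (hw : ∀ i, w i ∈ L)
    (G : MvPolynomial ((Fin n ⊕ Fin n) ⊕ Fin r) k) : val k x y w G ∈ L := by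
  have h1 : val k x y w G ∈ Algebra.adjoin k (Set.range (pt x y w)) := by
    rw [Algebra.adjoin_range_eq_range_aeval]
    exact ⟨G, rfl⟩
  have h2 : Algebra.adjoin k (Set.range (pt x y w)) ≤ L.toSubalgebra := by
    rw [Algebra.adjoin_le_iff]
    rintro _ ⟨v, rfl⟩
    rcases v with (j | j) | i
    · exact hx j
    · exact hy j
    · exact hw i
  exact h2 h1

theorem Normal.y_mem {x y : Fin n → K} (h : Normal x y) (L : IntermediateField k K) (j : Fin n) :
    y j ∈ L := by
  rcases h j with h | ⟨-, h⟩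
  · rw [h]; exact L.one_mem
  · rw [h]; exact L.zero_mem

/-- the function field of a subvariety is generated by the normalised coordinates -/
theorem top_le {d : ℕ} {x y : Fin n → K} {w : Fin r → K} (hN : Normal x y)
    (V : S.Subvariety d x y w) {L : IntermediateField k K} (hx : ∀ j, x j ∈ L)
    (hw : ∀ i, w i ∈ L) : L = ⊤ := by
  rw [eq_top_iff, ← V.gen, IntermediateField.adjoin_le_iff]
  rintro _ ⟨G, H, d, -, -, -, rfl⟩
  exact L.div_mem (val_mem hx (Normal.y_mem hN L) hw G) (val_mem hx (Normal.y_mem hN L) hw H)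

theorem rhs_mem {L : IntermediateField k K} {x y : Fin n → K}
    (hx : ∀ j, x j ∈ L) (hy : ∀ j, y j ∈ L) (i : Fin r) : S.rhs i x y ∈ L := by
  refine prod_mem fun j _ => prod_mem fun l _ => pow_mem (add_mem ?_ ?_) _
  · exact mul_mem (L.algebraMap_mem _) (hx j)
  · exact mul_mem (L.algebraMap_mem _) (hy j)

/-- the function field is algebraic over the field of the normalised coordinates `x j` -/
theorem alg (hS : S.Good) {d : ℕ} {x y : Fin n → K} {w : Fin r → K} (hN : Normal x y)
    (V : S.Subvariety d x y w) :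
    Algebra.IsAlgebraic (IntermediateField.adjoin k (Set.range x)) K := by
  set E := IntermediateField.adjoin k (Set.range x) with hE
  have hx : ∀ j, x j ∈ E := fun j => IntermediateField.subset_adjoin k _ ⟨j, rfl⟩
  let A : IntermediateField k K := (algebraicClosure E K).restrictScalars k
  have hA : A = ⊤ := by
    refine S.top_le hN V (fun j => ?_) fun i => ?_
    · change x j ∈ algebraicClosure E K
      rw [mem_algebraicClosure_iff]
      exact isAlgebraic_algebraMap (⟨x j, hx j⟩ : E)
    · change w i ∈ algebraicClosure E K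
      rw [mem_algebraicClosure_iff]
      have h1 : IsAlgebraic E (w i ^ S.m i) := by
        rw [V.point.eq i]
        exact isAlgebraic_algebraMap (⟨_, S.rhs_mem hx (Normal.y_mem hN E) i⟩ : E)
      exact (isAlgebraic_iff_isIntegral.2 ((isAlgebraic_iff_isIntegral.1 h1).of_pow (S.m_pos hS i)))
  refine ⟨fun u => ?_⟩
  rw [← mem_algebraicClosure_iff]
  have : u ∈ A := by rw [hA]; trivial
  exact this

/-- **Closed subvarieties outside of the zero locus are of general type.** -/
theorem general_type [IsAlgClosed k] [CharZero k] (hS : S.Good) {d : ℕ} (hd : 1 ≤ d)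
    {x y : Fin n → K} {w : Fin r → K} (V : S.Subvariety d x y w) {i : Fin r} (hi : w i ≠ 0) :
    GeneralType k K d := by
  have ht := S.nf_ne V.point
  have hN := S.nf_normal V.point
  have V' := Subvariety.scale S hS ht V
  refine general (q := S.q i) (a := S.a i) (b := S.b i) (e := S.e i) (m := S.m i) (f := S.deg i)
    (hS.three i) (fun j l l' hl => ?_) (hS.pos i) (S.sum_e hS i) (S.m_pos hS i) ?_ hN
    (mul_ne_zero (prod_ne ht (S.deg i)) hi) (V'.point.eq i) (S.alg hS hN V') hd V.dim
  · have := hS.indep j ⟨i, l⟩ ⟨i, l'⟩ (by simpa using hl)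
    exact this
  · have h1 := hS.small i
    have hm : (0 : ℝ) < S.m i := by exact_mod_cast S.m_pos hS i
    have h2 : ∑ j, (∑ l, (S.e i j l : ℝ)) / ((S.q i j : ℝ) - 2) =
        S.m i * ∑ j, (S.deg i j : ℝ) / ((S.q i j : ℝ) - 2) := by
      rw [Finset.mul_sum]
      refine Finset.sum_congr rfl fun j _ => ?_
      have h3 : (∑ l, (S.e i j l : ℝ)) = S.m i * S.deg i j := by exact_mod_cast S.sum_e hS i j
      rw [h3, mul_div_assoc]
    rw [h2] at h1
    nlinarith

end Sys

end Pool.Agent.P8H50.SG
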