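import Pool.Agent.P8H50.SG.Defs

/-!
Projective varieties over the varieties of systems of cyclic covers of a product of projective
lines: definitions (helper50).
-/

set_option autoImplicit false

namespace Pool.Agent.P8H50.SG

open MvPolynomial

namespace Sys

variable {k : Type} [Field k] {n r : ℕ} (S : Sys k n r) (N : ℕ)

/-- The multidegrees of the coordinates of `P^N × X`: the degree in the homogeneous coordinates `v` of
`P^N`, and the multidegree in the coordinates of `X`. -/
def oweight : Fin (N + 1) ⊕ ((Fin n ⊕ Fin n) ⊕ Fin r) → ℕ × (Fin n → ℕ) :=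
  Sum.elim (fun _ => (1, 0)) fun s => (0, S.weight s)

/-- `G` is a form of multidegree `d` on `P^N × X` -/
def OForm (G : MvPolynomial (Fin (N + 1) ⊕ ((Fin n ⊕ Fin n) ⊕ Fin r)) k)
    (d : ℕ × (Fin n → ℕ)) : Prop :=
  G.IsWeightedHomogeneous (S.oweight N) d

variable {N} {K : Type} [Field K] [Algebra k K]

variable (k) in
/-- the value of `G` at `(v, x, y, w)` -/
noncomputable def _root_.Pool.Agent.P8H50.SG.oval {n r N : ℕ} (v : Fin (N + 1) → K)
    (x y : Fin n → K) (w : Fin r → K)
    (G : MvPolynomial (Fin (N + 1) ⊕ ((Fin n ⊕ Fin n) ⊕ Fin r)) k) : K :=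
  aeval (Sum.elim v (pt x y w)) G

/-- the restrictions of the rational functions on `P^N × X` to the closed subvariety with the
generic point `(v, x, y, w)` -/
def oratios (v : Fin (N + 1) → K) (x y : Fin n → K) (w : Fin r → K) : Set K :=
  {g | ∃ G H d, S.OForm N G d ∧ S.OForm N H d ∧ oval k v x y w H ≠ 0 ∧
    g = oval k v x y w G / oval k v x y w H}

/-- `K` is the function field, and `(v, x, y, w)` the generic point, of a closed subvariety `Y` of
dimension `d` of `P^N × X`. The points of `Y` are the common zeros of the forms which vanish at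
`(v, x, y, w)`. Every projective variety with a morphism to `X` is of this kind, with the projection
to `X`. -/
structure OverVariety (d : ℕ) (v : Fin (N + 1) → K) (x y : Fin n → K) (w : Fin r → K) :
    Prop where
  ne : ∃ i, v i ≠ 0
  point : S.Point x y w
  gen : IntermediateField.adjoin k (S.oratios v x y w) = ⊤
  dim : Algebra.trdeg k K = d

/-- The map with the homogeneous coordinates `x j : y j` from the variety with the function field `K`
to the product of projective lines is generically finite onto its image. (The map from `X` to the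
product of projective lines is finite.) -/
def GenFinite {n : ℕ} (k : Type) [Field k] {K : Type} [Field K] [Algebra k K] (x y : Fin n → K) :
    Prop :=
  Algebra.IsAlgebraic (IntermediateField.adjoin k (Set.range fun j => x j / y j)) K

end Sys

variable {n r : ℕ} (S : Sys ℂ n r)

/-- The variety `Y` in `P^N × X` with the generic point `(v, x, y, w)` is pseudo-Brody hyperbolic:
some form which does not vanish on `Y` vanishes on all nonconstant entire curves in `Y`. Here `V, X, Y,
W` are homogeneous coordinates of holomorphic maps from the complex plane to `P^N × X`; they are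
entire functions, and the `V i` have no common zeros. -/
def Sys.OPseudoBrody {N : ℕ} {K : Type} [Field K] [Algebra ℂ K] (v : Fin (N + 1) → K)
    (x y : Fin n → K) (w : Fin r → K) : Prop :=
  ∃ G d, S.OForm N G d ∧ oval ℂ v x y w G ≠ 0 ∧
    ∀ (V : Fin (N + 1) → ℂ → ℂ) (X Y : Fin n → ℂ → ℂ) (W : Fin r → ℂ → ℂ),
      (∀ i, Differentiable ℂ (V i)) → (∀ z, ∃ i, V i z ≠ 0) → S.Entire X Y W →
      (∀ H c, S.OForm N H c → oval ℂ v x y w H = 0 →
        ∀ z, oval ℂ (fun i => V i z) (fun j => X j z) (fun j => Y j z) (fun i => W i z) H = 0) →
      ((∀ i i' z z', V i z * V i' z' = V i' z * V i z') ∧ ConstantMap X Y) ∨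
      ∀ z, oval ℂ (fun i => V i z) (fun j => X j z) (fun j => Y j z) (fun i => W i z) G = 0

end Pool.Agent.P8H50.SG
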