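import Pool.Agent.P8H50.SG.ODefs
import Pool.Agent.P8H50.SG.Ent

/-!
Systems over grids (helper50): varieties over the systems.
-/

set_option autoImplicit false

open FF Pool.Agent.W603.LV Pool.Agent.W602.GT MvPolynomial

namespace Pool.Agent.P8H50.SG

section
variable {k : Type} [Field k] {K : Type} [Field K] [Algebra k K] {n : ℕ}

/-- scaling of the values of multihomogeneous polynomials -/
theorem wscale {σ : Type} [Fintype σ] (wt : σ → Fin n → ℕ) (t : Fin n → K) (f : σ → K)
    {G : MvPolynomial σ k} {d : Fin n → ℕ} (hG : G.IsWeightedHomogeneous wt d) :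
    aeval (fun s => (∏ j, t j ^ wt s j) * f s) G = (∏ j, t j ^ d j) * aeval f G := by
  classical
  rw [aeval_def, aeval_def, eval₂_eq', eval₂_eq', Finset.mul_sum]
  refine Finset.sum_congr rfl fun D hD => ?_
  have h1 : Finsupp.weight wt D = d := hG (mem_support_iff.1 hD)
  have h2 : ∀ j, ∑ v, wt v j * D v = d j := by
    intro j
    rw [← h1, Finsupp.weight_apply, Finsupp.sum_fintype _ _ (by simp), Finset.sum_apply]
    refine Finset.sum_congr rfl fun v _ => ?_
    simp [mul_comm]
  have h3 : ∏ v, ((∏ j, t j ^ wt v j) * f v) ^ D v = (∏ j, t j ^ d j) * ∏ v, f v ^ D v := by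
    have h4 : ∏ j, t j ^ d j = ∏ v, (∏ j, t j ^ wt v j) ^ D v := by
      simp only [← Finset.prod_pow, ← pow_mul]
      rw [Finset.prod_comm]
      refine Finset.prod_congr rfl fun j _ => ?_
      rw [Finset.prod_pow_eq_pow_sum, h2]
    rw [h4, ← Finset.prod_mul_distrib]
    refine Finset.prod_congr rfl fun v _ => ?_
    rw [mul_pow]
  rw [h3]
  ring

/-- the multidegrees of the coordinates of the product of projective lines -/
def wt2 : Fin n ⊕ Fin n → Fin n → ℕ :=
  Sum.elim (fun j => Pi.single j 1) fun j => Pi.single j 1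

theorem scale2 (t : Fin n → K) (x y : Fin n → K) {G : MvPolynomial (Fin n ⊕ Fin n) k}
    {d : Fin n → ℕ} (hG : G.IsWeightedHomogeneous wt2 d) :
    aeval (Sum.elim (fun j => t j * x j) fun j => t j * y j) G =
      (∏ j, t j ^ d j) * aeval (Sum.elim x y) G := by
  classical
  rw [← wscale wt2 t _ hG]
  congr 2
  funext s
  rcases s with j | j
  · simp only [Sum.elim_inl, wt2]
    congr 1
    rw [Finset.prod_eq_single j]
    · simp
    · intro b _ hb
      simp [hb]
    · simp
  · simp only [Sum.elim_inr, wt2]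
    congr 1
    rw [Finset.prod_eq_single j]
    · simp
    · intro b _ hb
      simp [hb]
    · simp

open scoped Classical in
/-- the multidegree `δ` in the coordinates with `y j ≠ 0` -/
noncomputable def dD (y : Fin n → K) (δ : ℕ) (j : Fin n) : ℕ := if y j = 0 then 0 else δ

open scoped Classical in
/-- the product of the powers `y j ^ δ` -/
noncomputable def dB (y : Fin n → K) (δ : ℕ) : K := ∏ j, if y j = 0 then 1 else y j ^ δ

theorem dB_ne (y : Fin n → K) (δ : ℕ) : dB y δ ≠ 0 := by
  unfold dB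
  refine Finset.prod_ne_zero_iff.2 fun j _ => ?_
  split_ifs with h
  · exact one_ne_zero
  · exact pow_ne_zero _ h

theorem dD_add (y : Fin n → K) (δ ε : ℕ) : dD y (δ + ε) = dD y δ + dD y ε := by
  funext j
  simp only [dD, Pi.add_apply]
  split_ifs <;> simp

theorem dB_add (y : Fin n → K) (δ ε : ℕ) : dB y (δ + ε) = dB y δ * dB y ε := by
  unfold dB
  rw [← Finset.prod_mul_distrib]
  refine Finset.prod_congr rfl fun j _ => ?_
  split_ifs
  · simp
  · rw [pow_add]

/-- the numerator property -/
def HasForm (x y : Fin n → K) (g : K) (δ : ℕ) : Prop :=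
  ∃ A : MvPolynomial (Fin n ⊕ Fin n) k, A.IsWeightedHomogeneous wt2 (dD y δ) ∧
    aeval (Sum.elim x y) A = g * dB y δ

theorem hasForm_one (x y : Fin n → K) (δ : ℕ) : HasForm (k := k) x y 1 δ := by
  classical
  refine ⟨∏ j, if y j = 0 then 1 else X (Sum.inr j) ^ δ, ?_, ?_⟩
  · have h1 := IsWeightedHomogeneous.prod (R := k) (w := (wt2 : Fin n ⊕ Fin n → Fin n → ℕ))
      (Finset.univ : Finset (Fin n))
      (fun j => if y j = 0 then 1 else X (Sum.inr j) ^ δ)
      (fun j => if y j = 0 then 0 else δ • Pi.single j 1) (fun j _ => by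
        by_cases h : y j = 0
        · simp only [h, if_true]
          exact isWeightedHomogeneous_one k _
        · simp only [h, if_false]
          exact (isWeightedHomogeneous_X k _ (Sum.inr j)).pow δ)
    convert h1 using 1
    funext i
    rw [Finset.sum_apply, Finset.sum_eq_single i]
    · by_cases h : y i = 0
      · simp [dD, h]
      · simp [dD, h]
    · intro b _ hb
      by_cases h : y b = 0
      · simp [h]
      · simp [h, Pi.single_apply, hb.symm]
    · simp
  · rw [one_mul, map_prod]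
    unfold dB
    refine Finset.prod_congr rfl fun j _ => ?_
    by_cases h : y j = 0
    · simp [h]
    · simp [h]

theorem hasForm_gen (x y : Fin n → K) (j0 : Fin n) {δ : ℕ} (hδ : 1 ≤ δ) :
    HasForm (k := k) x y (x j0 / y j0) δ := by
  classical
  by_cases h0 : y j0 = 0
  · refine ⟨0, isWeightedHomogeneous_zero _ _ _, ?_⟩
    rw [h0, div_zero, map_zero, zero_mul]
  refine ⟨∏ j, if y j = 0 then 1 else
    if j = j0 then X (Sum.inl j) * X (Sum.inr j) ^ (δ - 1) else X (Sum.inr j) ^ δ, ?_, ?_⟩
  · have h1 := IsWeightedHomogeneous.prod (R := k) (w := (wt2 : Fin n ⊕ Fin n → Fin n → ℕ))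
      (Finset.univ : Finset (Fin n))
      (fun j => if y j = 0 then 1 else
        if j = j0 then X (Sum.inl j) * X (Sum.inr j) ^ (δ - 1) else X (Sum.inr j) ^ δ)
      (fun j => if y j = 0 then 0 else δ • Pi.single j 1) (fun j _ => by
        by_cases h : y j = 0
        · simp only [h, if_true]
          exact isWeightedHomogeneous_one k _
        · simp only [h, if_false]
          by_cases hj : j = j0
          · simp only [hj, if_true]
            have h2 := (isWeightedHomogeneous_X k (wt2 : Fin n ⊕ Fin n → Fin n → ℕ)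
              (Sum.inl j0)).mul
              ((isWeightedHomogeneous_X k (wt2 : Fin n ⊕ Fin n → Fin n → ℕ) (Sum.inr j0)).pow
                (δ - 1))
            have h3 : (wt2 : Fin n ⊕ Fin n → Fin n → ℕ) (Sum.inl j0) +
                (δ - 1) • (wt2 : Fin n ⊕ Fin n → Fin n → ℕ) (Sum.inr j0) =
                δ • Pi.single j0 1 := by
              change Pi.single j0 1 + (δ - 1) • Pi.single j0 1 = δ • Pi.single j0 1
              obtain ⟨ε, rfl⟩ := Nat.exists_eq_add_of_le hδ
              rw [Nat.add_sub_cancel_left, add_smul, one_smul]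
            rw [h3] at h2
            exact h2
          · simp only [hj, if_false]
            exact (isWeightedHomogeneous_X k _ (Sum.inr j)).pow δ)
    convert h1 using 1
    funext i
    rw [Finset.sum_apply, Finset.sum_eq_single i]
    · by_cases h : y i = 0
      · simp [dD, h]
      · simp [dD, h]
    · intro b _ hb
      by_cases h : y b = 0
      · simp [h]
      · simp [h, Pi.single_apply, hb.symm]
    · simp
  · rw [map_prod]
    unfold dB
    have h2 : x j0 / y j0 = ∏ j, if j = j0 then x j0 / y j0 else 1 := by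
      rw [Finset.prod_ite_eq' Finset.univ j0]
      simp
    rw [h2, ← Finset.prod_mul_distrib]
    refine Finset.prod_congr rfl fun j _ => ?_
    by_cases hj : j = j0
    · subst hj
      simp only [h0, if_false, if_true, map_mul, map_pow, aeval_X, Sum.elim_inl, Sum.elim_inr]
      obtain ⟨ε, rfl⟩ := Nat.exists_eq_add_of_le hδ
      rw [Nat.add_sub_cancel_left, pow_add, pow_one]
      field_simp
    · by_cases h : y j = 0
      · simp [h, hj]
      · simp [h, hj]

theorem HasForm.mul {x y : Fin n → K} {g h : K} {δ ε : ℕ} (hg : HasForm (k := k) x y g δ)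
    (hh : HasForm (k := k) x y h ε) : HasForm (k := k) x y (g * h) (δ + ε) := by
  obtain ⟨A, hA, hA'⟩ := hg
  obtain ⟨B, hB, hB'⟩ := hh
  refine ⟨A * B, ?_, ?_⟩
  · rw [dD_add]
    exact hA.mul hB
  · rw [map_mul, hA', hB', dB_add]
    ring

theorem HasForm.add {x y : Fin n → K} {g h : K} {δ : ℕ} (hg : HasForm (k := k) x y g δ)
    (hh : HasForm (k := k) x y h δ) : HasForm (k := k) x y (g + h) δ := by
  obtain ⟨A, hA, hA'⟩ := hg
  obtain ⟨B, hB, hB'⟩ := hh
  refine ⟨A + B, hA.add hB, ?_⟩
  rw [map_add, hA', hB', add_mul]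

theorem HasForm.smul {x y : Fin n → K} {g : K} {δ : ℕ} (c : k) (hg : HasForm (k := k) x y g δ) :
    HasForm (k := k) x y (algebraMap k K c * g) δ := by
  obtain ⟨A, hA, hA'⟩ := hg
  refine ⟨C c * A, ?_, ?_⟩
  · have := (isWeightedHomogeneous_C (wt2 : Fin n ⊕ Fin n → Fin n → ℕ) c).mul hA
    rwa [zero_add] at this
  · rw [map_mul, hA', aeval_C, mul_assoc]

/-- numerators -/
theorem exists_form (x y : Fin n → K) {g : K}
    (hg : g ∈ Algebra.adjoin k (Set.range fun j => x j / y j)) :
    ∃ δ0, ∀ δ, δ0 ≤ δ → HasForm (k := k) x y g δ := by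
  induction hg using Algebra.adjoin_induction with
  | mem g hg =>
    obtain ⟨j, rfl⟩ := hg
    exact ⟨1, fun δ hδ => hasForm_gen x y j hδ⟩
  | algebraMap c =>
    refine ⟨0, fun δ _ => ?_⟩
    have := (hasForm_one (k := k) x y δ).smul c
    rwa [mul_one] at this
  | add g h _ _ ihg ihh =>
    obtain ⟨δ1, h1⟩ := ihg
    obtain ⟨δ2, h2⟩ := ihh
    exact ⟨max δ1 δ2, fun δ hδ => (h1 δ ((le_max_left _ _).trans hδ)).add
      (h2 δ ((le_max_right _ _).trans hδ))⟩
  | mul g h _ _ ihg ihh =>
    obtain ⟨δ1, h1⟩ := ihg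
    obtain ⟨δ2, h2⟩ := ihh
    refine ⟨δ1 + δ2, fun δ hδ => ?_⟩
    have h3 := (h1 δ1 le_rfl).mul (h2 (δ - δ1) (by omega))
    rwa [Nat.add_sub_cancel' (by omega)] at h3

/-- algebraic relations with forms as coefficients -/
theorem relation (x y : Fin n → K) (halg : Sys.GenFinite k x y) (u : K) :
    ∃ (D δ : ℕ) (A : ℕ → MvPolynomial (Fin n ⊕ Fin n) k),
      (∀ s ≤ D, (A s).IsWeightedHomogeneous wt2 (dD y δ)) ∧
      ∑ s ∈ Finset.range (D + 1), aeval (Sum.elim x y) (A s) * u ^ s = 0 ∧
      aeval (Sum.elim x y) (A D) ≠ 0 := by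
  classical
  have h1 : Algebra.IsAlgebraic (Algebra.adjoin k (Set.range fun j => x j / y j)) K :=
    alg_adjoin halg
  obtain ⟨p, hp0, hp⟩ := h1.isAlgebraic u
  have h2 : ∀ s, ∃ δ0, ∀ δ, δ0 ≤ δ → HasForm (k := k) x y ((p.coeff s : _) : K) δ := fun s =>
    exists_form x y (p.coeff s).2
  choose δ0 hδ0 using h2
  set δ := ∑ s ∈ Finset.range (p.natDegree + 1), δ0 s with hδ
  have h3 : ∀ s ≤ p.natDegree, HasForm (k := k) x y ((p.coeff s : _) : K) δ := fun s hs =>
    hδ0 s δ (Finset.single_le_sum (f := δ0) (fun _ _ => Nat.zero_le _)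
      (Finset.mem_range.2 (Nat.lt_succ_of_le hs)))
  choose! A hA hA' using h3
  refine ⟨p.natDegree, δ, A, hA, ?_, ?_⟩
  · have h4 : ∑ s ∈ Finset.range (p.natDegree + 1), aeval (Sum.elim x y) (A s) * u ^ s =
        dB y δ * Polynomial.aeval u p := by
      rw [Polynomial.aeval_eq_sum_range, Finset.mul_sum]
      refine Finset.sum_congr rfl fun s hs => ?_
      rw [hA' s (Nat.lt_succ_iff.1 (Finset.mem_range.1 hs)), Algebra.smul_def]
      change ((p.coeff s : _) : K) * dB y δ * u ^ s = dB y δ * (((p.coeff s : _) : K) * u ^ s)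
      ring
    rw [h4, hp, mul_zero]
  · rw [hA' _ le_rfl]
    refine mul_ne_zero ?_ (dB_ne y δ)
    have h5 : p.coeff p.natDegree ≠ 0 := by
      rw [Polynomial.coeff_natDegree]
      exact Polynomial.leadingCoeff_ne_zero.2 hp0
    intro h6
    apply h5
    exact Subtype.ext h6

end

/-- renaming of weighted homogeneous polynomials -/
theorem rename_wh {R σ τ M : Type} [CommSemiring R] [AddCommMonoid M] {w : σ → M} {w' : τ → M}
    {φ : MvPolynomial σ R} {m : M} (f : σ → τ) (hw : ∀ s, w' (f s) = w s)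
    (h : φ.IsWeightedHomogeneous w m) : (rename f φ).IsWeightedHomogeneous w' m := by
  intro d hd
  obtain ⟨u, rfl, hu⟩ := coeff_rename_ne_zero f φ d hd
  have h1 := h hu
  rw [← h1, Finsupp.weight_apply, Finsupp.weight_apply, Finsupp.sum_mapDomain_index (by simp)
    (by intro a b c; rw [add_smul])]
  exact Finsupp.sum_congr fun a _ => by rw [hw]

end Pool.Agent.P8H50.SG
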